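import Mathlib
import Pool.Agent.H24.NB.General

/-!
# Weighted lower bounds

For a finite set `J ⊆ [λ, 1]` and real coefficients we bound from below
`∫_1^∞ |1 - ∑ b θ {θ x}| x^{-τ-1} dx`, for every `τ > 0`.  Adapted from
`Pool.Agent.H24.NB.General` (helper24), which is the case `τ = 1`.
-/

namespace Pool.Agent.H6.Lp

open Complex Set MeasureTheory Filter Topology Pool.Agent.H6 Pool.Agent.H24.NB

noncomputable def nrmT (τ : ℝ) (J : Finset ℝ) (b : ℝ → ℝ) : ℝ :=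
  ∫ x in Ioi (1:ℝ), |gG J b x| * x ^ (-(τ + 1))

lemma integrableOn_nrmT {τ : ℝ} (hτ : 0 < τ) (J : Finset ℝ) (b : ℝ → ℝ) :
    IntegrableOn (fun x : ℝ => |gG J b x| * x ^ (-(τ + 1))) (Ioi 1) := by
  have h := (integrableOn_Ioi_rpow_of_lt (show (-(τ + 1)) < -1 by linarith)
    (zero_lt_one)).const_mul (1 + ∑ θ ∈ J, |b θ|)
  refine Integrable.mono' h ?_ ?_
  · refine ((measurable_gG J b).abs.mul ?_).aestronglyMeasurable
    exact measurable_id.pow_const _
  · refine (ae_restrict_iff' measurableSet_Ioi).2 (ae_of_all _ fun x hx => ?_)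
    have hx0 : (0:ℝ) < x := lt_trans zero_lt_one hx
    rw [Real.norm_eq_abs, abs_mul, abs_abs, abs_of_nonneg (Real.rpow_nonneg hx0.le _)]
    exact mul_le_mul_of_nonneg_right (abs_gG_le J b x) (Real.rpow_nonneg hx0.le _)

lemma nrmT_nonneg (τ : ℝ) (J : Finset ℝ) (b : ℝ → ℝ) : 0 ≤ nrmT τ J b :=
  setIntegral_nonneg measurableSet_Ioi fun _ hx =>
    mul_nonneg (abs_nonneg _) (Real.rpow_nonneg (lt_trans zero_lt_one hx).le _)

/-- `gG` cut off at `1` -/
noncomputable def gcut (J : Finset ℝ) (b : ℝ → ℝ) (x : ℝ) : ℂ := if x < 1 then 0 else (gG J b x : ℂ)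

lemma gcut_measurable (J : Finset ℝ) (b : ℝ → ℝ) : Measurable (gcut J b) := by
  unfold gcut
  refine Measurable.ite measurableSet_Iio measurable_const ?_
  exact measurable_ofReal.comp (measurable_gG J b)

lemma norm_gcut_le (J : Finset ℝ) (b : ℝ → ℝ) (x : ℝ) : ‖gcut J b x‖ ≤ 1 + ∑ θ ∈ J, |b θ| := by
  have h0 : 0 ≤ 1 + ∑ θ ∈ J, |b θ| := by
    have := Finset.sum_nonneg (s := J) fun θ _ => abs_nonneg (b θ)
    linarith
  unfold gcut
  split_ifs
  · simpa using h0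
  · rw [norm_real, Real.norm_eq_abs]
    exact abs_gG_le J b x

lemma gcut_locallyIntegrableOn (J : Finset ℝ) (b : ℝ → ℝ) :
    LocallyIntegrableOn (gcut J b) (Ioi 0) := by
  apply LocallyIntegrable.locallyIntegrableOn
  refine (locallyIntegrable_const (1 + ∑ θ ∈ J, |b θ|)).mono
    (gcut_measurable J b).aestronglyMeasurable (Eventually.of_forall fun t ↦ ?_)
  have h0 : 0 ≤ 1 + ∑ θ ∈ J, |b θ| := by
    have := Finset.sum_nonneg (s := J) fun θ _ => abs_nonneg (b θ)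
    linarith
  rw [Real.norm_of_nonneg h0]
  exact norm_gcut_le J b t

lemma mellin_gcut_differentiableAt (J : Finset ℝ) (b : ℝ → ℝ) {s : ℂ} (hs : 0 < s.re) :
    DifferentiableAt ℂ (fun s ↦ mellin (gcut J b) (-s)) s := by
  have h1 : DifferentiableAt ℂ (mellin (gcut J b)) (-s) := by
    refine mellin_differentiableAt_of_isBigO_rpow (a := 0) (b := (-s).re - 1)
      (gcut_locallyIntegrableOn J b) ?_ ?_ ?_ ?_
    · refine Asymptotics.IsBigO.of_bound (1 + ∑ θ ∈ J, |b θ|) ?_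
      filter_upwards with t
      simpa using norm_gcut_le J b t
    · simpa using hs
    · refine Asymptotics.IsBigO.of_bound 1 ?_
      have : Iio (1 : ℝ) ∈ 𝓝[>] (0 : ℝ) := mem_nhdsWithin_of_mem_nhds (Iio_mem_nhds one_pos)
      filter_upwards [this] with t ht
      have h : t < 1 := ht
      have : gcut J b t = 0 := by unfold gcut; rw [if_pos h]
      rw [this, norm_zero]
      positivity
    · linarith
  exact DifferentiableAt.comp (g := mellin (gcut J b)) (f := fun s : ℂ => -s) s h1 (by fun_prop)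

lemma mellin_gcut_eq (J : Finset ℝ) (b : ℝ → ℝ) (s : ℂ) :
    mellin (gcut J b) (-s) = ∫ x in Ioi (1 : ℝ), (gG J b x : ℂ) * (x : ℂ) ^ (-(s + 1)) := by
  unfold mellin
  have h1 : ∫ t in Ioi (0 : ℝ), (t : ℂ) ^ (-s - 1) • gcut J b t
      = ∫ t in Ici (1 : ℝ), (t : ℂ) ^ (-s - 1) • gcut J b t := by
    refine setIntegral_eq_of_subset_of_forall_sdiff_eq_zero measurableSet_Ioi ?_ ?_
    · intro t ht
      exact lt_of_lt_of_le one_pos (mem_Ici.mp ht)
    · intro t ht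
      have h : t < 1 := by
        have := ht.2
        simpa using this
      have : gcut J b t = 0 := by unfold gcut; rw [if_pos h]
      rw [this, smul_zero]
  rw [h1, integral_Ici_eq_integral_Ioi]
  refine setIntegral_congr_fun measurableSet_Ioi fun x hx => ?_
  have hx1 : ¬ x < 1 := not_lt.2 (le_of_lt hx)
  simp only [gcut, if_neg hx1, smul_eq_mul]
  rw [mul_comm]
  congr 2
  ring

lemma HG_mellin {J : Finset ℝ} (hJ : ∀ θ ∈ J, 0 < θ ∧ θ ≤ 1) (b : ℝ → ℝ) {s : ℂ}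
    (hs : 0 < s.re) :
    HG J b s = s * ∫ x in Ioi (1:ℝ), (gG J b x : ℂ) * (x : ℂ) ^ (-(s + 1)) := by
  rw [← mellin_gcut_eq]
  have h1 : AnalyticOnNhd ℂ (HG J b) {s | 0 < s.re} :=
    ((differentiable_HG (fun θ hθ => (hJ θ hθ).1) b).differentiableOn).analyticOnNhd
      (isOpen_re_gt 0)
  have h2 : AnalyticOnNhd ℂ (fun s ↦ s * mellin (gcut J b) (-s)) {s | 0 < s.re} := by
    refine DifferentiableOn.analyticOnNhd ?_ (isOpen_re_gt 0)
    intro z hz
    exact (differentiableAt_id.mul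
      (mellin_gcut_differentiableAt J b (s := z) hz)).differentiableWithinAt
  have hpre : IsPreconnected {s : ℂ | 0 < s.re} := (convex_halfSpace_re_gt 0).isPreconnected
  have hev : HG J b =ᶠ[𝓝 (2 : ℂ)] fun s ↦ s * mellin (gcut J b) (-s) := by
    filter_upwards [(isOpen_re_gt 1).mem_nhds (show (2 : ℂ) ∈ {s : ℂ | 1 < s.re} by simp)] with z hz
    rw [mellin_gcut_eq]
    exact HG_eq_mellin hJ b hz
  exact h1.eqOn_of_preconnected_of_eventuallyEq h2 hpre (by simp) hev hs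

lemma norm_HG_le_T {τ : ℝ} (hτ : 0 < τ) {J : Finset ℝ} (hJ : ∀ θ ∈ J, 0 < θ ∧ θ ≤ 1) (b : ℝ → ℝ)
    {s : ℂ} (hs : τ ≤ s.re) : ‖HG J b s‖ ≤ ‖s‖ * nrmT τ J b := by
  rw [HG_mellin hJ b (by linarith), norm_mul]
  refine mul_le_mul_of_nonneg_left ?_ (norm_nonneg _)
  refine norm_integral_le_of_norm_le (integrableOn_nrmT hτ J b) ?_
  refine (ae_restrict_iff' measurableSet_Ioi).2 (ae_of_all _ fun x hx => ?_)
  have hx1 : (1:ℝ) < x := hx
  have hx0 : (0:ℝ) < x := lt_trans zero_lt_one hx1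
  rw [norm_mul, Complex.norm_cpow_eq_rpow_re_of_pos hx0, Complex.norm_real, Real.norm_eq_abs]
  refine mul_le_mul_of_nonneg_left ?_ (abs_nonneg _)
  refine Real.rpow_le_rpow_of_exponent_le hx1.le ?_
  simp
  linarith

lemma zeta0_crude' (L M : ℝ) : ∃ C : ℝ, 0 ≤ C ∧ ∀ s : ℂ, -L ≤ s.re → s.re ≤ M →
    ‖riemannZeta₀ s‖ ≤ C * Real.exp (2 * |s.im|) := by
  obtain ⟨C1, hC10, hC1⟩ := zeta0_crude L
  refine ⟨C1 + (2 + |M| + ‖riemannZeta₀ 1‖), by positivity, fun s h1 h2 => ?_⟩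
  have hexp : 1 ≤ Real.exp (2 * |s.im|) := Real.one_le_exp (by positivity)
  have hE0 : 0 ≤ Real.exp (2 * |s.im|) := by linarith
  rcases le_or_gt s.re 1 with h | h
  · refine (hC1 s h1 h).trans ?_
    have : 0 ≤ 2 + |M| + ‖riemannZeta₀ 1‖ := by positivity
    nlinarith
  · have hs1 : s ≠ 1 := by
      rintro rfl
      simp at h
    have hs1' : s - 1 ≠ 0 := sub_ne_zero.2 hs1
    have e1 : riemannZeta₀ s = 1 - s * frMellin s := by
      have h3 := zetaPole_eq (s := s) (by linarith)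
      rw [zetaPole_of_ne hs1, riemannZeta_eq_inv_sub_add hs1] at h3
      have h4 : (s - 1) * riemannZeta₀ s = (s - 1) * (1 - s * frMellin s) := by
        have h5 : (s - 1) * ((s - 1)⁻¹ + riemannZeta₀ s) = 1 + (s - 1) * riemannZeta₀ s := by
          field_simp
        linear_combination h3 - h5
      exact mul_left_cancel₀ hs1' h4
    rw [e1]
    have h5 := norm_frMellin_le (s := s) (by linarith)
    have h6 : ‖frMellin s‖ ≤ 1 := by
      refine h5.trans ?_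
      rw [div_le_one (by linarith)]
      exact h.le
    have h7 : ‖s‖ ≤ |M| + |s.im| := by
      have h8 := Complex.norm_le_abs_re_add_abs_im s
      have h9 : |s.re| ≤ |M| := by
        rw [abs_of_pos (by linarith)]
        exact h2.trans (le_abs_self M)
      linarith
    have h8 : |s.im| ≤ Real.exp (2 * |s.im|) := by
      have := Real.add_one_le_exp (2 * |s.im|)
      linarith [abs_nonneg s.im]
    have h9 : ‖(1:ℂ) - s * frMellin s‖ ≤ 1 + (|M| + |s.im|) := by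
      refine (norm_sub_le _ _).trans ?_
      rw [norm_one, norm_mul]
      have : ‖s‖ * ‖frMellin s‖ ≤ ‖s‖ * 1 := by gcongr
      linarith
    refine h9.trans ?_
    have h10 := abs_nonneg M
    have h11 := norm_nonneg (riemannZeta₀ 1)
    nlinarith [mul_nonneg hC10 hE0, mul_nonneg h11 hE0, mul_nonneg h10 hE0]

/-- Phragmén–Lindelöf in the half-plane `Re s ≤ M`. -/
lemma BG_bound_T {τ M : ℝ} (hτ : 0 < τ) (hM : 2 ≤ M) (hτM : τ ≤ M) {lam : ℝ} (hl0 : 0 < lam)
    {J : Finset ℝ} (hJ : ∀ θ ∈ J, lam ≤ θ ∧ θ ≤ 1) (b : ℝ → ℝ) {s : ℂ} (hs : s.re ≤ M) :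
    ‖BG J b s‖ ≤ Z2 * (2 * nrmT τ J b + 1 + 2 * |SG J b|) * (2 * M) * ‖s - (M + 1)‖ *
      lam ^ (-(M - s.re)) := by
  have hJ0 : ∀ θ ∈ J, 0 < θ ∧ θ ≤ 1 := fun θ hθ => ⟨hl0.trans_le (hJ θ hθ).1, (hJ θ hθ).2⟩
  set C1 := Z2 * (2 * nrmT τ J b + 1 + 2 * |SG J b|) * (2 * M) with hC1
  have hε0 := nrmT_nonneg τ J b
  have hlc : (lam : ℂ) ≠ 0 := by exact_mod_cast hl0.ne'
  set v : ℂ → ℂ := fun z => BG J b (M - z) * (lam : ℂ) ^ z / (z + 1) with hv
  have hden : ∀ z : ℂ, 0 ≤ z.re → z + 1 ≠ 0 := by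
    intro z hz h
    have := congrArg Complex.re h
    simp at this
    linarith
  have hvd : DiffContOnCl ℂ v {z : ℂ | 0 < z.re} := by
    apply DifferentiableOn.diffContOnCl
    rw [Complex.closure_setOfPred_lt_re]
    intro z hz
    have hz' : 0 ≤ z.re := hz
    have d1 : DifferentiableAt ℂ (fun z : ℂ => BG J b (M - z)) z :=
      ((differentiable_BG (fun θ hθ => (hJ0 θ hθ).1) b) (M - z)).comp z
        ((differentiableAt_const _).sub differentiableAt_id)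
    have d2 : DifferentiableAt ℂ (fun z : ℂ => (lam : ℂ) ^ z) z :=
      differentiableAt_id.const_cpow (Or.inl hlc)
    exact ((d1.mul d2).div (differentiableAt_id.add_const 1) (hden z hz')).differentiableWithinAt
  -- boundedness in the half-plane
  set K := ∑ θ ∈ J, |b θ| with hK
  have hK0 : 0 ≤ K := Finset.sum_nonneg fun θ _ => abs_nonneg _
  have hvb : ∀ z : ℂ, 0 ≤ z.re → ‖v z‖ ≤ K := by
    intro z hz
    have h1 : ‖BG J b (M - z)‖ * ‖(lam : ℂ) ^ z‖ ≤ K := by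
      rw [Complex.norm_cpow_eq_rpow_re_of_pos hl0]
      unfold BG
      calc ‖∑ θ ∈ J, (b θ : ℂ) * (θ : ℂ) ^ (M - z)‖ * lam ^ z.re
          ≤ (∑ θ ∈ J, |b θ| * θ ^ (M - z.re)) * lam ^ z.re := by
            refine mul_le_mul_of_nonneg_right ?_ (by positivity)
            refine norm_sum_le_of_le _ fun θ hθ => ?_
            rw [norm_mul, Complex.norm_real, Real.norm_eq_abs,
              Complex.norm_cpow_eq_rpow_re_of_pos (hJ0 θ hθ).1]
            simp
        _ = ∑ θ ∈ J, |b θ| * (θ ^ (M - z.re) * lam ^ z.re) := by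
            rw [Finset.sum_mul]
            exact Finset.sum_congr rfl fun θ _ => by ring
        _ ≤ ∑ θ ∈ J, |b θ| := by
            refine Finset.sum_le_sum fun θ hθ => ?_
            have hθ0 := (hJ0 θ hθ).1
            have h2 : lam ^ z.re ≤ θ ^ z.re := Real.rpow_le_rpow hl0.le (hJ θ hθ).1 hz
            have h3 : θ ^ (M - z.re) * θ ^ z.re ≤ 1 := by
              rw [← Real.rpow_add hθ0]
              apply Real.rpow_le_one hθ0.le (hJ θ hθ).2
              linarith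
            have h4 : θ ^ (M - z.re) * lam ^ z.re ≤ 1 := by
              refine le_trans ?_ h3
              gcongr
            calc |b θ| * (θ ^ (M - z.re) * lam ^ z.re) ≤ |b θ| * 1 := by gcongr
              _ = |b θ| := mul_one _
    have h5 : 1 ≤ ‖z + 1‖ := by
      have := Complex.abs_re_le_norm (z + 1)
      rw [add_re, one_re, abs_of_nonneg (by linarith)] at this
      linarith
    show ‖BG J b (M - z) * (lam : ℂ) ^ z / (z + 1)‖ ≤ K
    rw [norm_div, norm_mul]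
    exact (div_le_self (by positivity) h5).trans h1
  -- bound on the imaginary axis
  have hvI : ∀ x : ℝ, ‖v (x * I)‖ ≤ C1 := by
    intro x
    set w : ℂ := M - x * I with hw
    have hwre : w.re = M := by simp [hw]
    have hw1 : w ≠ 1 := by
      intro h
      have := congrArg Complex.re h
      rw [hwre] at this
      simp at this
      linarith
    have hz0 : riemannZeta w ≠ 0 := riemannZeta_ne_zero_of_one_le_re (by rw [hwre]; linarith)
    have hB : BG J b w = (HG J b w - 1 + SG J b * (w / (w - 1))) * (riemannZeta w)⁻¹ := by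
      rw [HG_eq J b hw1]
      field_simp
      ring
    have hw1n : 1 ≤ ‖w - 1‖ := by
      have := Complex.abs_re_le_norm (w - 1)
      rw [sub_re, one_re, hwre, abs_of_pos (by linarith)] at this
      linarith
    have hratio : ‖w / (w - 1)‖ ≤ 2 := by
      rw [norm_div, div_le_iff₀ (by linarith)]
      have h3 : ‖w‖ ≤ ‖w - 1‖ + 1 := by
        have := norm_add_le (w - 1) 1
        rw [sub_add_cancel, norm_one] at this
        exact this
      linarith
    have h1x : ‖w - 1‖ ≤ (2 * M) * ‖(x:ℂ) * I + 1‖ := by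
      have a1 := Complex.norm_le_abs_re_add_abs_im (w - 1)
      have a2 : |(w - 1).re| = M - 1 := by
        rw [sub_re, one_re, hwre, abs_of_pos (by linarith)]
      have a3 : |(w - 1).im| = |x| := by simp [hw]
      have a4 : 1 ≤ ‖(x:ℂ) * I + 1‖ := by
        have := Complex.abs_re_le_norm ((x:ℂ) * I + 1)
        simpa using this
      have a5 : |x| ≤ ‖(x:ℂ) * I + 1‖ := by
        have := Complex.abs_im_le_norm ((x:ℂ) * I + 1)
        simpa using this
      rw [a2, a3] at a1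
      nlinarith
    have hBn : ‖BG J b w‖ ≤ (‖w‖ * nrmT τ J b + 1 + |SG J b| * 2) * Z2 := by
      rw [hB, norm_mul]
      have h4 := norm_inv_riemannZeta_le (x := 2) (s := w) (by norm_num) (by rw [hwre]; exact hM)
      have h5 : ‖HG J b w - 1 + SG J b * (w / (w - 1))‖ ≤ ‖w‖ * nrmT τ J b + 1 + |SG J b| * 2 := by
        refine (norm_add_le _ _).trans ?_
        have h6 := norm_sub_le (HG J b w) 1
        rw [norm_one] at h6
        have h7 := norm_HG_le_T hτ hJ0 b (s := w) (by rw [hwre]; exact hτM)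
        have h8 : ‖(SG J b : ℂ) * (w / (w - 1))‖ ≤ |SG J b| * 2 := by
          rw [norm_mul, Complex.norm_real, Real.norm_eq_abs]
          gcongr
        linarith
      exact mul_le_mul h5 h4 (norm_nonneg _) (by positivity)
    show ‖BG J b (M - x * I) * (lam : ℂ) ^ (x * I) / (x * I + 1)‖ ≤ C1
    have hx1 : 0 < ‖(x:ℂ) * I + 1‖ := by nlinarith
    rw [norm_div, norm_mul, ← hw, Complex.norm_cpow_eq_rpow_re_of_pos hl0]
    have h9 : ((x:ℂ) * I).re = 0 := by simp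
    rw [h9, Real.rpow_zero, mul_one, div_le_iff₀ hx1]
    refine hBn.trans ?_
    have h3 : ‖w‖ ≤ 2 * ‖w - 1‖ := by
      have := norm_add_le (w - 1) 1
      rw [sub_add_cancel, norm_one] at this
      linarith
    rw [hC1]
    have hS := abs_nonneg (SG J b)
    have hZ := Z2_nonneg
    have h10 : ‖w‖ * nrmT τ J b + 1 + |SG J b| * 2 ≤
        (2 * nrmT τ J b + 1 + 2 * |SG J b|) * ‖w - 1‖ := by
      nlinarith
    calc (‖w‖ * nrmT τ J b + 1 + |SG J b| * 2) * Z2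
        ≤ ((2 * nrmT τ J b + 1 + 2 * |SG J b|) * ((2 * M) * ‖(x:ℂ) * I + 1‖)) * Z2 := by
          refine mul_le_mul_of_nonneg_right (h10.trans ?_) hZ
          gcongr
      _ = _ := by ring
  have hPL : ∀ z : ℂ, 0 ≤ z.re → ‖v z‖ ≤ C1 := by
    intro z hz
    refine PhragmenLindelof.right_half_plane_of_bounded_on_real hvd ?_ ?_ hvI hz
    · refine ⟨1, by norm_num, 0, ?_⟩
      refine Asymptotics.IsBigO.of_bound K ?_
      rw [Filter.eventually_inf_principal]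
      refine Eventually.of_forall fun z hz => ?_
      simpa using hvb z (le_of_lt hz)
    · refine ⟨K, ?_⟩
      rw [Filter.eventually_map]
      filter_upwards [eventually_ge_atTop 0] with x hx
      exact hvb x (by simpa using hx)
  have h1 := hPL (M - s) (by simp; linarith)
  have e1 : v (M - s) = BG J b s * (lam : ℂ) ^ (M - s) / (M + 1 - s) := by
    show BG J b (M - (M - s)) * (lam : ℂ) ^ (M - s) / (M - s + 1) = _
    ring_nf
  have h3s : (M:ℂ) + 1 - s ≠ 0 := by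
    intro h
    have := congrArg Complex.re h
    simp at this
    linarith
  have h3n : 0 < ‖(M:ℂ) + 1 - s‖ := norm_pos_iff.2 h3s
  rw [e1, norm_div, norm_mul, Complex.norm_cpow_eq_rpow_re_of_pos hl0, div_le_iff₀ h3n] at h1
  have h4 : ((M:ℂ) - s).re = M - s.re := by simp
  rw [h4] at h1
  have h5 : 0 < lam ^ (M - s.re) := Real.rpow_pos_of_pos hl0 _
  rw [Real.rpow_neg hl0.le, norm_sub_rev s (M + 1), ← div_eq_mul_inv, le_div_iff₀ h5]
  exact h1

lemma norm_HG_left_T {τ M : ℝ} (hτ : 0 < τ) (hM : 2 ≤ M) (hτM : τ ≤ M) {lam : ℝ} (hl0 : 0 < lam)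
    (hl1 : lam ≤ 1) {J : Finset ℝ}
    (hJ : ∀ θ ∈ J, lam ≤ θ ∧ θ ≤ 1) (b : ℝ → ℝ) (hb : nrmT τ J b ≤ 1) {L C : ℝ} (hL : 0 ≤ L)
    (hC0 : 0 ≤ C)
    (hC : ∀ s : ℂ, -L ≤ s.re → s.re ≤ M → ‖riemannZeta₀ s‖ ≤ C * Real.exp (2 * |s.im|))
    {s : ℂ} (hs : s.re = -L) :
    ‖HG J b s‖ ≤ ((2 + (C + 1) * (6 * M * Z2 * (L + M + 1))) * (1 + |SG J b|) *
      lam ^ (-(L + M))) * Real.exp (3 * |s.im|) := by
  have hB := BG_bound_T hτ hM hτM hl0 hJ b (s := s) (by rw [hs]; linarith)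
  have hZ := hC s hs.ge (by linarith)
  have hε0 := nrmT_nonneg τ J b
  have hZ2 := Z2_nonneg
  set S := |SG J b| with hS
  have hS0 : 0 ≤ S := abs_nonneg _
  set P := lam ^ (-(L + M)) with hP
  have hP1 : 1 ≤ P := by
    rw [hP, Real.rpow_neg hl0.le]
    exact (one_le_inv₀ (by positivity)).2 (Real.rpow_le_one hl0.le hl1 (by linarith))
  have hs1 : s ≠ 1 := by
    rintro rfl
    simp at hs
    linarith
  have hn1 : 1 ≤ ‖s - 1‖ := by
    have h := Complex.abs_re_le_norm (s - 1)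
    have h2 : |(s - 1).re| = L + 1 := by
      rw [sub_re, one_re, hs, abs_of_neg (by linarith)]; ring
    linarith
  set t := |s.im| with ht
  have ht0 : 0 ≤ t := abs_nonneg _
  have h3 : ‖s - (M + 1)‖ ≤ (L + M + 1) * Real.exp t := by
    have h4 := Complex.norm_le_abs_re_add_abs_im (s - (M + 1))
    have h5 : |(s - ((M:ℂ) + 1)).re| = L + M + 1 := by
      rw [sub_re, hs]
      simp only [add_re, ofReal_re, one_re]
      rw [abs_of_neg (by linarith)]; ring
    have h6 : |(s - ((M:ℂ) + 1)).im| = t := by simp [ht]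
    rw [h5, h6] at h4
    have h7 := Real.add_one_le_exp t
    nlinarith
  have hB2 : ‖BG J b s‖ ≤ (6 * M * Z2 * (L + M + 1)) * (1 + S) * P * Real.exp t := by
    refine hB.trans ?_
    have e : -(M - s.re) = -(L + M) := by rw [hs]; ring
    rw [e, ← hP]
    have h8 : 2 * nrmT τ J b + 1 + 2 * S ≤ 3 * (1 + S) := by linarith
    calc Z2 * (2 * nrmT τ J b + 1 + 2 * S) * (2 * M) * ‖s - (M + 1)‖ * P
        ≤ Z2 * (3 * (1 + S)) * (2 * M) * ((L + M + 1) * Real.exp t) * P := by gcongr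
      _ = _ := by ring
  set BB := ‖BG J b s‖ with hBB
  have hd : ‖dslope (BG J b) 1 s‖ ≤ BB + S := by
    rw [dslope_of_ne _ hs1, slope_def_field, BG_one, norm_div]
    refine (div_le_self (norm_nonneg _) hn1).trans ?_
    refine (norm_sub_le _ _).trans ?_
    rw [Complex.norm_real, Real.norm_eq_abs]
  have h1 : ‖(1:ℂ) - SG J b‖ ≤ 1 + S := by
    refine (norm_sub_le _ _).trans ?_
    rw [norm_one, Complex.norm_real, Real.norm_eq_abs]
  have h2 : ‖riemannZeta₀ s * BG J b s‖ ≤ (C * Real.exp (2 * t)) * BB := by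
    rw [norm_mul]
    gcongr
  have hE2 : 1 ≤ Real.exp (2 * t) := Real.one_le_exp (by positivity)
  have hE3 : Real.exp (3 * t) = Real.exp (2 * t) * Real.exp t := by
    rw [← Real.exp_add]; ring_nf
  have hE31 : 1 ≤ Real.exp (3 * t) := Real.one_le_exp (by positivity)
  have hBB0 : 0 ≤ BB := norm_nonneg _
  calc ‖HG J b s‖ ≤ ‖(1:ℂ) - SG J b‖ + ‖riemannZeta₀ s * BG J b s‖ + ‖dslope (BG J b) 1 s‖ := by
        unfold HG
        exact (norm_add_le _ _).trans (by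
          have := norm_add_le ((1:ℂ) - SG J b) (riemannZeta₀ s * BG J b s)
          linarith)
    _ ≤ (1 + S) + (C * Real.exp (2 * t)) * BB + (BB + S) := by linarith
    _ ≤ 2 * (1 + S) + (C + 1) * Real.exp (2 * t) * BB := by nlinarith
    _ ≤ 2 * (1 + S) * (P * Real.exp (3 * t)) + (C + 1) * Real.exp (2 * t) *
        ((6 * M * Z2 * (L + M + 1)) * (1 + S) * P * Real.exp t) := by
      have hPE : 1 ≤ P * Real.exp (3 * t) := by nlinarith
      have h9 : 2 * (1 + S) ≤ 2 * (1 + S) * (P * Real.exp (3 * t)) := by nlinarith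
      have h10 : (C + 1) * Real.exp (2 * t) * BB ≤ (C + 1) * Real.exp (2 * t) *
        ((6 * M * Z2 * (L + M + 1)) * (1 + S) * P * Real.exp t) := by gcongr
      linarith
    _ = _ := by rw [hE3]; ring

lemma norm_HG_strip_T {M : ℝ} {J : Finset ℝ} (hJ : ∀ θ ∈ J, 0 < θ ∧ θ ≤ 1) (b : ℝ → ℝ) {L C : ℝ}
    (hC0 : 0 ≤ C)
    (hC : ∀ s : ℂ, -L ≤ s.re → s.re ≤ M → ‖riemannZeta₀ s‖ ≤ C * Real.exp (2 * |s.im|)) :
    ∃ K : ℝ, ∀ s : ℂ, -L ≤ s.re → s.re ≤ M → ‖HG J b s‖ ≤ K * Real.exp (3 * |s.im|) := by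
  set B := ∑ θ ∈ J, |b θ| * θ ^ (-L) with hBdef
  have hB0 : 0 ≤ B := Finset.sum_nonneg fun θ hθ => by
    have := (hJ θ hθ).1
    positivity
  have hB : ∀ s : ℂ, -L ≤ s.re → ‖BG J b s‖ ≤ B := by
    intro s hs
    unfold BG
    refine norm_sum_le_of_le _ fun θ hθ => ?_
    obtain ⟨h0, h1⟩ := hJ θ hθ
    rw [norm_mul, Complex.norm_real, Real.norm_eq_abs, Complex.norm_cpow_eq_rpow_re_of_pos h0]
    have h3 : θ ^ s.re ≤ θ ^ (-L) := Real.rpow_le_rpow_of_exponent_ge h0 h1 hs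
    gcongr
  have hcd : Continuous (dslope (BG J b) 1) := by
    have h1 : Differentiable ℂ (dslope (BG J b) 1) := by
      rw [← differentiableOn_univ]
      exact (Complex.differentiableOn_dslope univ_mem).2
        (differentiable_BG (fun θ hθ => (hJ θ hθ).1) b).differentiableOn
    exact h1.continuous
  obtain ⟨D, hD⟩ := (isCompact_closedBall (1:ℂ) 1).exists_bound_of_continuousOn hcd.continuousOn
  have hd : ∀ s : ℂ, -L ≤ s.re → ‖dslope (BG J b) 1 s‖ ≤ |D| + (B + |SG J b|) := by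
    intro s hs
    rcases le_or_gt ‖s - 1‖ 1 with h | h
    · have := hD s (by rw [Metric.mem_closedBall, dist_eq_norm]; exact h)
      have h2 := le_abs_self D
      have h3 := abs_nonneg (SG J b)
      linarith
    · have hs1 : s ≠ 1 := by
        rintro rfl
        simp at h
        linarith
      rw [dslope_of_ne _ hs1, slope_def_field, BG_one, norm_div]
      refine (div_le_self (norm_nonneg _) h.le).trans ?_
      refine (norm_sub_le _ _).trans ?_
      rw [Complex.norm_real, Real.norm_eq_abs]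
      have h1 := hB s hs
      have h2 := abs_nonneg D
      linarith
  refine ⟨1 + |SG J b| + C * B + (|D| + (B + |SG J b|)), fun s h1 h2 => ?_⟩
  have hE : 1 ≤ Real.exp (2 * |s.im|) := Real.one_le_exp (by positivity)
  have hE23 : Real.exp (2 * |s.im|) ≤ Real.exp (3 * |s.im|) :=
    Real.exp_le_exp.2 (by linarith [abs_nonneg s.im])
  unfold HG
  have h3 : ‖(1:ℂ) - SG J b‖ ≤ 1 + |SG J b| := by
    refine (norm_sub_le _ _).trans ?_
    rw [norm_one, Complex.norm_real, Real.norm_eq_abs]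
  have h4 : ‖riemannZeta₀ s * BG J b s‖ ≤ (C * Real.exp (2 * |s.im|)) * B := by
    rw [norm_mul]
    exact mul_le_mul (hC s h1 h2) (hB s h1) (norm_nonneg _) (by positivity)
  have h5 := hd s h1
  refine (norm_add_le _ _).trans ?_
  have h6 := norm_add_le ((1:ℂ) - SG J b) (riemannZeta₀ s * BG J b s)
  set E := Real.exp (2 * |s.im|)
  set E3 := Real.exp (3 * |s.im|)
  have h7 : 0 ≤ 1 + |SG J b| := by positivity
  have h8 : 0 ≤ |D| + (B + |SG J b|) := by positivity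
  have h9 : 0 ≤ C * B := by positivity
  nlinarith

lemma norm_exp_sq_le_T {ρ s : ℂ} {L M : ℝ} (hL : 0 ≤ L) (hM : 2 ≤ M) (h0 : 0 < ρ.re)
    (h1 : ρ.re < 1) (hs1 : -L ≤ s.re) (hs2 : s.re ≤ M) :
    Real.exp (3 * |s.im|) * ‖cexp ((s - ρ) ^ 2)‖ ≤ Real.exp ((L + M) ^ 2 + 3 * |ρ.im| + 3) := by
  rw [Complex.norm_exp, ← Real.exp_add]
  apply Real.exp_le_exp.2
  have e : ((s - ρ) ^ 2).re = (s.re - ρ.re) ^ 2 - (s.im - ρ.im) ^ 2 := by
    rw [sq, mul_re, sub_re, sub_im]; ring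
  rw [e]
  have h2 : (s.re - ρ.re) ^ 2 ≤ (L + M) ^ 2 := by
    exact sq_le_sq' (by linarith) (by linarith)
  have h3 : |s.im| ≤ |ρ.im| + |s.im - ρ.im| := by
    have := abs_add_le ρ.im (s.im - ρ.im)
    simpa using this
  have h4 : 3 * |s.im - ρ.im| ≤ 3 + (s.im - ρ.im) ^ 2 := by
    have := sq_nonneg (|s.im - ρ.im| - 3 / 2)
    have h5 := sq_abs (s.im - ρ.im)
    nlinarith
  linarith

/-- The three-lines estimate. -/
lemma three_lines_T {τ M : ℝ} (hτ : 0 < τ) (hM : 2 ≤ M) (hτM : τ ≤ M) {lam : ℝ} (hl0 : 0 < lam)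
    (hl1 : lam ≤ 1) {J : Finset ℝ}
    (hJ : ∀ θ ∈ J, lam ≤ θ ∧ θ ≤ 1) (b : ℝ → ℝ) (hb : nrmT τ J b ≤ 1) {L C : ℝ} (hL : 0 ≤ L)
    (hC0 : 0 ≤ C)
    (hC : ∀ s : ℂ, -L ≤ s.re → s.re ≤ M → ‖riemannZeta₀ s‖ ≤ C * Real.exp (2 * |s.im|))
    {ρ : ℂ} (h0 : 0 < ρ.re) (h1 : ρ.re < 1) (hρτ : ρ.re < τ) :
    ‖HG J b ρ‖ ≤ (((2 + (C + 1) * (6 * M * Z2 * (L + M + 1))) * (1 + |SG J b|) *
        lam ^ (-(L + M))) *
        Real.exp ((L + M) ^ 2 + 3 * |ρ.im| + 3)) ^ (1 - (ρ.re + L) / (τ + L)) *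
      (Real.exp ((L + M) ^ 2 + 3 * |ρ.im| + 3) * ((1 + τ) * nrmT τ J b)) ^
        ((ρ.re + L) / (τ + L)) := by
  have hJ0 : ∀ θ ∈ J, 0 < θ ∧ θ ≤ 1 := fun θ hθ => ⟨hl0.trans_le (hJ θ hθ).1, (hJ θ hθ).2⟩
  set E := Real.exp ((L + M) ^ 2 + 3 * |ρ.im| + 3) with hE
  have hE0 : 0 < E := Real.exp_pos _
  have hZ2 := Z2_nonneg
  set F : ℂ → ℂ := fun s => HG J b s * cexp ((s - ρ) ^ 2) with hF
  have hFd : Differentiable ℂ F := by
    refine (differentiable_HG (fun θ hθ => (hJ0 θ hθ).1) b).mul ?_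
    exact ((differentiable_id.sub_const ρ).pow 2).cexp
  have hnF : ∀ s : ℂ, -L ≤ s.re → s.re ≤ M → ∀ K : ℝ, 0 ≤ K →
      ‖HG J b s‖ ≤ K * Real.exp (3 * |s.im|) → ‖F s‖ ≤ K * E := by
    intro s hs1 hs2 K hK h
    rw [hF]
    simp only [norm_mul]
    have h3 := norm_exp_sq_le_T hL hM h0 h1 hs1 hs2
    calc ‖HG J b s‖ * ‖cexp ((s - ρ) ^ 2)‖
        ≤ (K * Real.exp (3 * |s.im|)) * ‖cexp ((s - ρ) ^ 2)‖ := by gcongr
      _ = K * (Real.exp (3 * |s.im|) * ‖cexp ((s - ρ) ^ 2)‖) := by ring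
      _ ≤ K * E := by gcongr
  have hmem : ρ ∈ Complex.HadamardThreeLines.verticalClosedStrip (-L) τ := by
    simp only [Complex.HadamardThreeLines.verticalClosedStrip, mem_preimage, mem_Icc]
    constructor <;> linarith
  have hbdd : BddAbove ((norm ∘ F) '' Complex.HadamardThreeLines.verticalClosedStrip (-L) τ) := by
    obtain ⟨K, hK⟩ := norm_HG_strip_T (M := M) hJ0 b hC0 hC
    refine ⟨|K| * E, ?_⟩
    rintro _ ⟨s, hs, rfl⟩
    simp only [Complex.HadamardThreeLines.verticalClosedStrip, mem_preimage, mem_Icc] at hs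
    refine hnF s hs.1 (hs.2.trans hτM) |K| (abs_nonneg K) ?_
    refine (hK s hs.1 (hs.2.trans hτM)).trans ?_
    gcongr
    exact le_abs_self K
  have hleft : ∀ s ∈ re ⁻¹' {-L}, ‖F s‖ ≤
      ((2 + (C + 1) * (6 * M * Z2 * (L + M + 1))) * (1 + |SG J b|) * lam ^ (-(L + M))) * E := by
    intro s hs
    have hs' : s.re = -L := hs
    exact hnF s hs'.ge (by linarith) _ (by positivity)
      (norm_HG_left_T hτ hM hτM hl0 hl1 hJ b hb hL hC0 hC hs')
  have hright : ∀ s ∈ re ⁻¹' {(τ:ℝ)}, ‖F s‖ ≤ E * ((1 + τ) * nrmT τ J b) := by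
    intro s hs
    have hs' : s.re = τ := hs
    have hn0 := nrmT_nonneg τ J b
    rw [mul_comm E]
    refine hnF s (by linarith) (by linarith) _ (by positivity) ?_
    have h2 := norm_HG_le_T hτ hJ0 b hs'.ge
    have h3 : ‖s‖ ≤ (1 + τ) * Real.exp (3 * |s.im|) := by
      have h4 := Complex.norm_le_abs_re_add_abs_im s
      rw [hs', abs_of_pos hτ] at h4
      have h5 := Real.add_one_le_exp (3 * |s.im|)
      have h6 := abs_nonneg s.im
      nlinarith
    calc ‖HG J b s‖ ≤ ‖s‖ * nrmT τ J b := h2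
      _ ≤ ((1 + τ) * Real.exp (3 * |s.im|)) * nrmT τ J b := by
        gcongr
      _ = _ := by ring
  have hlt : -L < τ := by linarith
  have key := Complex.HadamardThreeLines.norm_le_interp_of_mem_verticalClosedStrip' hlt hmem
    hFd.diffContOnCl hbdd hleft hright
  have e1 : F ρ = HG J b ρ := by
    rw [hF]; simp
  rw [e1] at key
  have e2 : (ρ.re - -L) / (τ - -L) = (ρ.re + L) / (τ + L) := by ring_nf
  rw [e2] at key
  exact key

lemma im_ratio_ne_zero {ρ : ℂ} (hρ : riemannZeta ρ = 0) (h0 : 0 < ρ.re) (h1 : ρ.re < 1) :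
    (ρ / (ρ - 1)).im ≠ 0 := by
  have hρ1 : ρ ≠ 1 := by rintro rfl; simp at h1
  have hρim := im_ne_zero_of_zero hρ h0 h1
  have hn : ρ - 1 ≠ 0 := sub_ne_zero.2 hρ1
  have e : ρ / (ρ - 1) = 1 + (ρ - 1)⁻¹ := by field_simp; ring
  rw [e, add_im, one_im, zero_add, inv_im, sub_im, one_im, sub_zero]
  exact div_ne_zero (neg_ne_zero.2 hρim) (by simpa using hn)

/-- **Weighted lower bound.** -/
theorem lower_T_aux {ρ : ℂ} (hρ : riemannZeta ρ = 0) (h0 : 0 < ρ.re) (h1 : ρ.re < 1) {τ : ℝ}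
    (hρτ : ρ.re < τ) {η : ℝ} (hη : 0 < η) :
    ∃ c : ℝ, 0 < c ∧ ∀ lam : ℝ, 0 < lam → lam ≤ 1 → ∀ J : Finset ℝ,
      (∀ θ ∈ J, lam ≤ θ ∧ θ ≤ 1) → ∀ b : ℝ → ℝ,
      c * lam ^ ((τ - ρ.re) * (1 + η)) ≤ nrmT τ J b := by
  have hτ : 0 < τ := by linarith
  set M : ℝ := max 2 τ with hMdef
  have hM : 2 ≤ M := le_max_left _ _
  have hτM : τ ≤ M := le_max_right _ _
  set L : ℝ := M / η with hLdef
  have hL : 0 < L := by positivity
  obtain ⟨C, hC0, hC⟩ := zeta0_crude' L M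
  set E := Real.exp ((L + M) ^ 2 + 3 * |ρ.im| + 3) with hE
  have hE0 : 0 < E := Real.exp_pos _
  set θ : ℝ := (ρ.re + L) / (τ + L) with hθ
  have hθ0 : 0 < θ := by positivity
  have hθ1 : 1 - θ = (τ - ρ.re) / (τ + L) := by
    rw [hθ]; field_simp; ring
  have hθ10 : 0 < 1 - θ := by
    rw [hθ1]
    have : 0 < τ - ρ.re := by linarith
    positivity
  have hρ1 : ρ ≠ 1 := by rintro rfl; simp at h1
  have hZ2 := Z2_nonneg
  obtain ⟨c0, hc0, hc0'⟩ := one_sub_mul_ge (im_ratio_ne_zero hρ h0 h1)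
  set A : ℝ := (2 + (C + 1) * (6 * M * Z2 * (L + M + 1))) * E with hA
  have hA0 : 0 < A := by positivity
  set E' : ℝ := E * (1 + τ) with hE'
  have hE'0 : 0 < E' := by positivity
  set c1 : ℝ := c0 ^ (1 / θ) / (A ^ ((1 - θ) / θ) * E') with hc1
  have hc10 : 0 < c1 := by positivity
  refine ⟨min 1 c1, by positivity, fun lam hl0 hl1 J hJ b => ?_⟩
  set κ := (τ - ρ.re) * (1 + η) with hκ
  have hκ0 : 0 ≤ κ := by
    have : 0 ≤ τ - ρ.re := by linarith
    positivity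
  have hP1 : lam ^ κ ≤ 1 := Real.rpow_le_one hl0.le hl1 hκ0
  have hP0 : 0 < lam ^ κ := Real.rpow_pos_of_pos hl0 _
  have hε0 := nrmT_nonneg τ J b
  rcases le_or_gt 1 (nrmT τ J b) with hbig | hsmall
  · have : min 1 c1 ≤ 1 := min_le_left _ _
    have h2 : 0 ≤ min 1 c1 := by positivity
    nlinarith
  have h2 : min 1 c1 * lam ^ κ ≤ c1 * lam ^ κ := by
    have : min 1 c1 ≤ c1 := min_le_right _ _
    gcongr
  refine h2.trans ?_
  set S := |SG J b| with hS
  have hS0 : 0 ≤ S := abs_nonneg _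
  have hH : c0 * (1 + S) ≤ ‖HG J b ρ‖ := by
    rw [HG_eq J b hρ1, hρ, zero_mul, add_zero]
    exact hc0' (SG J b)
  have h3 := three_lines_T hτ hM hτM hl0 hl1 hJ b hsmall.le hL.le hC0 hC h0 h1 hρτ
  rw [← hE, ← hθ, ← hS] at h3
  have h4 : c0 * (1 + S) ≤ (1 + S) ^ (1 - θ) * ((A * lam ^ (-(L + M))) ^ (1 - θ) *
      (E' * nrmT τ J b) ^ θ) := by
    refine hH.trans (h3.trans (le_of_eq ?_))
    rw [hA, hE']
    rw [show (2 + (C + 1) * (6 * M * Z2 * (L + M + 1))) * (1 + S) * lam ^ (-(L + M)) * E =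
      (1 + S) * ((2 + (C + 1) * (6 * M * Z2 * (L + M + 1))) * E * lam ^ (-(L + M))) by ring,
      Real.mul_rpow (by positivity) (by positivity)]
    rw [show E * ((1 + τ) * nrmT τ J b) = E * (1 + τ) * nrmT τ J b by ring]
    ring
  have h5 : c0 ≤ (A * lam ^ (-(L + M))) ^ (1 - θ) * (E' * nrmT τ J b) ^ θ := by
    have h6 : (1 + S) ^ (1 - θ) ≤ 1 + S := by
      calc (1 + S) ^ (1 - θ) ≤ (1 + S) ^ (1:ℝ) :=
            Real.rpow_le_rpow_of_exponent_le (by linarith) (by linarith)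
        _ = 1 + S := Real.rpow_one _
    have h7 : 0 ≤ (A * lam ^ (-(L + M))) ^ (1 - θ) * (E' * nrmT τ J b) ^ θ := by positivity
    have h8 : c0 * (1 + S) ≤ (1 + S) * ((A * lam ^ (-(L + M))) ^ (1 - θ) *
      (E' * nrmT τ J b) ^ θ) := h4.trans (by gcongr)
    have h9 : 0 < 1 + S := by linarith
    rw [mul_comm c0] at h8
    exact le_of_mul_le_mul_left h8 h9
  -- raise to the power 1/θ
  have h6 : c0 ^ (1 / θ) ≤ (A * lam ^ (-(L + M))) ^ ((1 - θ) / θ) * (E' * nrmT τ J b) := by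
    have h6 := Real.rpow_le_rpow hc0.le h5 (by positivity : 0 ≤ 1 / θ)
    rw [Real.mul_rpow (by positivity) (by positivity), ← Real.rpow_mul (by positivity),
      ← Real.rpow_mul (by positivity)] at h6
    have e1 : (1 - θ) * (1 / θ) = (1 - θ) / θ := by ring
    have e2 : θ * (1 / θ) = 1 := by field_simp
    rwa [e1, e2, Real.rpow_one] at h6
  have h7 : (A * lam ^ (-(L + M))) ^ ((1 - θ) / θ) ≤ A ^ ((1 - θ) / θ) * lam ^ (-κ) := by
    rw [Real.mul_rpow hA0.le (by positivity), ← Real.rpow_mul hl0.le]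
    refine mul_le_mul_of_nonneg_left ?_ (by positivity)
    refine Real.rpow_le_rpow_of_exponent_ge hl0 hl1 ?_
    rw [hθ1, hθ, hκ]
    have e3 : (τ - ρ.re) / (τ + L) / ((ρ.re + L) / (τ + L)) = (τ - ρ.re) / (ρ.re + L) := by
      have : τ + L ≠ 0 := by positivity
      field_simp
    rw [e3]
    have e4 : -(L + M) * ((τ - ρ.re) / (ρ.re + L)) = -((τ - ρ.re) * ((L + M) / (ρ.re + L))) := by
      ring
    rw [e4, neg_le_neg_iff]
    refine mul_le_mul_of_nonneg_left ?_ (by linarith)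
    rw [div_le_iff₀ (by positivity)]
    have e5 : η * L = M := by rw [hLdef]; field_simp
    nlinarith [mul_pos hη h0]
  have h8 : c0 ^ (1 / θ) ≤ A ^ ((1 - θ) / θ) * lam ^ (-κ) * (E' * nrmT τ J b) :=
    h6.trans (mul_le_mul_of_nonneg_right h7 (by positivity))
  rw [hc1]
  have hpos : 0 < A ^ ((1 - θ) / θ) * E' := by positivity
  rw [div_mul_eq_mul_div, div_le_iff₀ hpos]
  calc c0 ^ (1 / θ) * lam ^ κ ≤
        (A ^ ((1 - θ) / θ) * lam ^ (-κ) * (E' * nrmT τ J b)) * lam ^ κ := by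
        gcongr
    _ = nrmT τ J b * (A ^ ((1 - θ) / θ) * E') * (lam ^ (-κ) * lam ^ κ) := by ring
    _ = nrmT τ J b * (A ^ ((1 - θ) / θ) * E') := by
      rw [← Real.rpow_add hl0, neg_add_cancel, Real.rpow_zero, mul_one]

/-- **Weighted lower bound**, all zeros. Every zero `ρ` of zeta with `0 < Re ρ < 1` forces
`∫_1^∞ |1 - ∑ b θ {θ x}| x^{-τ-1} dx ≥ c λ^{max(0, τ - Re ρ)(1 + η)}`. -/
theorem lower_T {ρ : ℂ} (hρ : riemannZeta ρ = 0) (h0 : 0 < ρ.re) (h1 : ρ.re < 1) {τ : ℝ}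
    (hτ : 0 < τ) {η : ℝ} (hη : 0 < η) :
    ∃ c : ℝ, 0 < c ∧ ∀ lam : ℝ, 0 < lam → lam ≤ 1 → ∀ J : Finset ℝ,
      (∀ θ ∈ J, lam ≤ θ ∧ θ ≤ 1) → ∀ b : ℝ → ℝ,
      c * lam ^ (max 0 (τ - ρ.re) * (1 + η)) ≤ nrmT τ J b := by
  rcases lt_or_ge ρ.re τ with h | h
  · obtain ⟨c, hc, hb⟩ := lower_T_aux hρ h0 h1 h hη
    refine ⟨c, hc, fun lam hl0 hl1 J hJ b => ?_⟩
    rw [max_eq_right (by linarith)]
    exact hb lam hl0 hl1 J hJ b
  · have hρ1 : ρ ≠ 1 := by rintro rfl; simp at h1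
    have hρ0 : 0 < ‖ρ‖ := by
      rw [norm_pos_iff]
      rintro rfl
      simp at h0
    obtain ⟨c0, hc0, hc0'⟩ := one_sub_mul_ge (im_ratio_ne_zero hρ h0 h1)
    refine ⟨c0 / ‖ρ‖, by positivity, fun lam hl0 hl1 J hJ b => ?_⟩
    rw [max_eq_left (by linarith), zero_mul, Real.rpow_zero, mul_one, div_le_iff₀ hρ0]
    have hJ0 : ∀ θ ∈ J, 0 < θ ∧ θ ≤ 1 := fun θ hθ => ⟨hl0.trans_le (hJ θ hθ).1, (hJ θ hθ).2⟩
    have h2 := norm_HG_le_T hτ hJ0 b h
    have hH : c0 * (1 + |SG J b|) ≤ ‖HG J b ρ‖ := by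
      rw [HG_eq J b hρ1, hρ, zero_mul, add_zero]
      exact hc0' (SG J b)
    have := abs_nonneg (SG J b)
    nlinarith

end Pool.Agent.H6.Lp
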