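import Mathlib
import Pool.Agent.H6.PerronBound

/-!
Power-saving bounds for partial sums from analytic continuation with subpolynomial growth,
uniform in the coefficients.
-/

open Complex Filter Topology MeasureTheory Set LSeries

namespace Pool.Agent.H6

/-- **Partial sums from continuation with subpolynomial growth**, uniform version. -/
theorem perron_bound_unif {θ : ℝ} (hθ : 1 / 2 ≤ θ) (hθ1 : θ < 2) {ε : ℝ} (hε : 0 < ε) :
    ∃ σ η A : ℝ, θ < σ ∧ σ < θ + ε ∧ 0 < η ∧ 0 ≤ A ∧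
      ∀ (a : ℕ → ℂ) (G : ℂ → ℂ) (C : ℝ), LSeriesSummable a ((2 : ℝ) : ℂ) →
      (∀ s : ℂ, θ < s.re → DifferentiableAt ℂ G s) →
      (∀ y : ℝ, G (((2 : ℝ) : ℂ) + y * I) = LSeries a (((2 : ℝ) : ℂ) + y * I)) →
      (∀ s : ℂ, σ ≤ s.re → s.re ≤ 2 → ‖G s‖ ≤ C * (1 + |s.im|) ^ η) →
      ∀ N : ℕ, 1 ≤ N → ‖∑ n ∈ Finset.Icc 1 N, a n‖ ≤ A * C * (N : ℝ) ^ (θ + ε) := by
  set ε' : ℝ := min ε (min (2 - θ) 1) with hε'
  have hε'0 : 0 < ε' := lt_min hε (lt_min (by linarith) one_pos)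
  have hε'1 : ε' ≤ ε := min_le_left _ _
  have hε'2 : ε' ≤ 2 - θ := (min_le_right _ _).trans (min_le_left _ _)
  have hε'3 : ε' ≤ 1 := (min_le_right _ _).trans (min_le_right _ _)
  set σ : ℝ := θ + ε' / 2 with hσ
  set τ : ℝ := ε' / 2 with hτ
  have hτ0 : 0 < τ := by rw [hτ]; linarith
  have hτ1 : τ ≤ 1 := by rw [hτ]; linarith
  set J : ℝ := ∫ y : ℝ, (1 + |y|) ^ (-(1 + τ / 2)) with hJ
  have hJnn : 0 ≤ J := integral_nonneg fun y ↦ by positivity
  refine ⟨σ, τ / 2, 18 * 2 ^ (θ + ε) * J, by rw [hσ]; linarith, by rw [hσ]; linarith,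
    by linarith, by positivity, fun a G C ha hG hGa hCb N hN ↦ ?_⟩
  have hC : 0 ≤ C := by
    have h1 := hCb ((2 : ℝ) : ℂ) (by rw [ofReal_re, hσ]; linarith) (by rw [ofReal_re])
    have h2 := (norm_nonneg _).trans h1
    simpa using h2
  have hN0 : (0 : ℝ) < N := by exact_mod_cast hN
  have hN1 : (1 : ℝ) ≤ N := by exact_mod_cast hN
  have hP := perron (c := 2) two_pos ha hN
  simp_rw [← hGa] at hP
  rw [hP]
  set Φ : ℂ → ℂ := fun s ↦ kern N s * G s with hΦ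
  have hdiff : ∀ w : ℂ, σ ≤ w.re → w.re ≤ 2 → DifferentiableAt ℂ Φ w := by
    intro w hw _
    exact (kern_differentiableAt hN (by rw [hσ] at hw; linarith)).mul
      (hG w (by rw [hσ] at hw; linarith))
  have hstrip : ∀ w : ℂ, σ ≤ w.re → w.re ≤ 2 →
      ‖Φ w‖ ≤ (18 * ((N : ℝ) + 1) ^ (3 : ℝ) * C) * (1 + |w.im|) ^ (-(2 - τ / 2)) := by
    intro w hw hw2
    have hpos : 0 < 1 + |w.im| := by linarith [abs_nonneg w.im]
    have b1 := norm_kern_le hN (s := w) (by rw [hσ] at hw; linarith) (τ := 1) zero_le_one le_rfl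
    have b2 := hCb w hw hw2
    have b3 : ((N : ℝ) + 1) ^ (w.re + 1) ≤ ((N : ℝ) + 1) ^ (3 : ℝ) :=
      Real.rpow_le_rpow_of_exponent_le (by linarith) (by linarith)
    rw [hΦ]
    simp only
    rw [norm_mul]
    calc ‖kern N w‖ * ‖G w‖ ≤ (18 * ((N : ℝ) + 1) ^ (3 : ℝ) * (1 + |w.im|) ^ (-(1 + 1 : ℝ))) *
          (C * (1 + |w.im|) ^ (τ / 2)) := by
          refine mul_le_mul (b1.trans ?_) b2 (norm_nonneg _) (by positivity)
          gcongr
      _ = (18 * ((N : ℝ) + 1) ^ (3 : ℝ) * C) *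
          ((1 + |w.im|) ^ (-(1 + 1 : ℝ)) * (1 + |w.im|) ^ (τ / 2)) := by ring
      _ = _ := by
        rw [← Real.rpow_add hpos]
        congr 2
        ring
  have hshift := vertical_shift (Φ := Φ) (l := σ) (u := 2) (by rw [hσ]; linarith) hdiff
    (p := 2 - τ / 2) (by linarith) hstrip
  have hshift' : ∫ y : ℝ, kern N (((2 : ℝ) : ℂ) + y * I) * G (((2 : ℝ) : ℂ) + y * I)
      = ∫ y : ℝ, Φ ((σ : ℂ) + y * I) := by rw [hshift]
  rw [hshift', norm_mul]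
  have hline : ∀ y : ℝ, ‖Φ ((σ : ℂ) + y * I)‖ ≤
      (18 * 2 ^ (θ + ε) * C) * (N : ℝ) ^ (θ + ε) * (1 + |y|) ^ (-(1 + τ / 2)) := by
    intro y
    set w : ℂ := (σ : ℂ) + y * I with hw
    have hwre : w.re = σ := by simp [hw]
    have hwim : w.im = y := by simp [hw]
    have hpos : 0 < 1 + |y| := by linarith [abs_nonneg y]
    have b1 := norm_kern_le hN (s := w) (by rw [hwre, hσ]; linarith) hτ0.le hτ1
    have b2 := hCb w hwre.ge (by rw [hwre, hσ]; linarith)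
    rw [hwre, hwim] at b1
    rw [hwim] at b2
    have b3 : ((N : ℝ) + 1) ^ (σ + τ) ≤ 2 ^ (θ + ε) * (N : ℝ) ^ (θ + ε) := by
      rw [← Real.mul_rpow (by norm_num) hN0.le]
      calc ((N : ℝ) + 1) ^ (σ + τ) ≤ (2 * (N : ℝ)) ^ (σ + τ) :=
            Real.rpow_le_rpow (by linarith) (by linarith) (by rw [hσ]; linarith)
        _ ≤ (2 * (N : ℝ)) ^ (θ + ε) :=
            Real.rpow_le_rpow_of_exponent_le (by linarith) (by rw [hσ, hτ]; linarith)
    show ‖kern N w * G w‖ ≤ _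
    rw [norm_mul]
    calc ‖kern N w‖ * ‖G w‖ ≤ (18 * (2 ^ (θ + ε) * (N : ℝ) ^ (θ + ε)) * (1 + |y|) ^ (-(1 + τ))) *
          (C * (1 + |y|) ^ (τ / 2)) := by
          refine mul_le_mul (b1.trans ?_) b2 (norm_nonneg _) (by positivity)
          gcongr
      _ = (18 * 2 ^ (θ + ε) * C) * (N : ℝ) ^ (θ + ε) *
          ((1 + |y|) ^ (-(1 + τ)) * (1 + |y|) ^ (τ / 2)) := by ring
      _ = _ := by
        rw [← Real.rpow_add hpos]
        congr 2
        ring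
  have hint : ‖∫ y : ℝ, Φ ((σ : ℂ) + y * I)‖ ≤
      (18 * 2 ^ (θ + ε) * C) * (N : ℝ) ^ (θ + ε) * J := by
    rw [hJ, ← integral_const_mul]
    exact norm_integral_le_of_norm_le
      ((integrable_one_add_abs_rpow (by linarith)).const_mul _) (Eventually.of_forall hline)
  have hpi : ‖(1 / (2 * Real.pi) : ℂ)‖ ≤ 1 := by
    rw [norm_div, norm_one, norm_mul, norm_real, Real.norm_of_nonneg Real.pi_pos.le]
    simp only [Complex.norm_ofNat]
    rw [div_le_one (by positivity)]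
    linarith [Real.pi_gt_three]
  calc ‖(1 / (2 * Real.pi) : ℂ)‖ * ‖∫ y : ℝ, Φ ((σ : ℂ) + y * I)‖
      ≤ 1 * ((18 * 2 ^ (θ + ε) * C) * (N : ℝ) ^ (θ + ε) * J) := by
        apply mul_le_mul hpi hint (norm_nonneg _) zero_le_one
    _ = _ := by ring

end Pool.Agent.H6
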