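import Mathlib
import Pool.Agent.H6.Lp.Perron
import Pool.Agent.H6.InvBound
import Pool.Agent.H6.PsiBound
import Pool.Agent.H24.NB.Upper

/-!
Bounds for `ζ` and for the partial sums of the Dirichlet series of `1/ζ` in a zero-free half-plane.
-/

open Complex Filter Topology MeasureTheory Set LSeries Metric

namespace Pool.Agent.H6

open Pool.Agent.H24.NB

theorem zetaPole_bound {θ : ℝ} (hθ : 1 / 2 ≤ θ) (hθ1 : θ < 1)
    (hZ : ∀ s : ℂ, θ < s.re → riemannZeta s ≠ 0) {σ : ℝ} (hσ : θ < σ) {η : ℝ} (hη : 0 < η) :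
    ∃ C : ℝ, 0 < C ∧ ∀ s : ℂ, σ ≤ s.re → s.re ≤ 2 →
      ‖zetaPole s‖ ≤ C * (1 + |s.im|) ^ (1 + η) := by
  set σ' : ℝ := min σ 1 with hσ'
  have hσ'1 : σ' ≤ 1 := min_le_right _ _
  have hσ'θ : θ < σ' := lt_min hσ hθ1
  obtain ⟨K, a, hK, ha, ha1, hL⟩ := log_bound hθ hθ1 hZ hσ'θ hσ'1
  obtain ⟨T, hT2, hT⟩ := eventually_log_le (K := K) (a := a) hη ha1
  have hcompact : IsCompact (Icc σ' 2 ×ℂ Icc (-T) T) := isCompact_Icc.reProdIm isCompact_Icc
  obtain ⟨M, hM⟩ := hcompact.exists_bound_of_continuousOn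
    (zetaPole_differentiable.continuous.continuousOn)
  refine ⟨max M 1, lt_of_lt_of_le one_pos (le_max_right _ _), fun s hs hs2 ↦ ?_⟩
  have hσs : σ' ≤ s.re := (min_le_left _ _).trans hs
  have hbase : (1 : ℝ) ≤ 1 + |s.im| := by linarith [abs_nonneg s.im]
  have h3 : (1 : ℝ) ≤ max M 1 := le_max_right _ _
  rcases le_or_gt |s.im| T with hsm | hlg
  · have h1 := hM s (mem_reProdIm.mpr ⟨⟨hσs, hs2⟩, abs_le.mp hsm⟩)
    refine h1.trans ((le_max_left M 1).trans ?_)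
    have h2 : (1 : ℝ) ≤ (1 + |s.im|) ^ (1 + η) := Real.one_le_rpow hbase (by linarith)
    nlinarith
  · have ht2 : 2 ≤ |s.im| := by linarith
    obtain ⟨L, hLd, hLe, hLb⟩ := hL s.im ht2
    obtain ⟨h1, h2⟩ := mem_ball_of_strip hσ'θ hσs hs2
    have h3' := hLb s h1
    have h4 := hT |s.im| hlg.le
    have hs1 : s ≠ 1 := by
      intro h
      rw [h, one_im, abs_zero] at ht2
      linarith
    have h6 : ‖riemannZeta s‖ ≤ |s.im| ^ η := by
      rw [← hLe s h2, Complex.norm_exp]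
      have h7 : (L s).re ≤ ‖L s‖ := re_le_norm _
      have h8 : 0 < |s.im| := by linarith
      rw [Real.rpow_def_of_pos h8]
      apply Real.exp_le_exp.mpr
      linarith
    have h7 : |s.im| ^ η ≤ (1 + |s.im|) ^ η := by
      apply Real.rpow_le_rpow (abs_nonneg _) (by linarith) hη.le
    have h8 : ‖s - 1‖ ≤ 1 + |s.im| := by
      have h9 := norm_le_abs_re_add_abs_im (s - 1)
      have h10 : |(s - 1).re| ≤ 1 := by
        rw [sub_re, one_re, abs_le]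
        constructor <;> linarith
      have h11 : |(s - 1).im| = |s.im| := by simp
      linarith
    rw [zetaPole_of_ne hs1, norm_mul]
    calc ‖s - 1‖ * ‖riemannZeta s‖ ≤ (1 + |s.im|) * (1 + |s.im|) ^ η := by
          gcongr
          exact h6.trans h7
      _ = 1 * (1 + |s.im|) ^ (1 + η) := by
          rw [Real.rpow_add (by linarith), Real.rpow_one, one_mul]
      _ ≤ max M 1 * (1 + |s.im|) ^ (1 + η) := by gcongr

/-- `μ(n) n^{-it}` -/
noncomputable def twMu (t : ℝ) (n : ℕ) : ℂ := (muR n : ℂ) * (n : ℂ) ^ (-((t : ℂ) * I))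

lemma term_twMu (t : ℝ) (s : ℂ) :
    term (twMu t) s = term (fun n ↦ ((ArithmeticFunction.moebius n : ℤ) : ℂ)) (s + t * I) := by
  ext n
  rcases eq_or_ne n 0 with rfl | hn
  · simp
  · rw [term_of_ne_zero hn, term_of_ne_zero hn, twMu, muR]
    have hn' : (n : ℂ) ≠ 0 := by exact_mod_cast hn
    rw [cpow_add _ _ hn', cpow_neg]
    push_cast
    field_simp

lemma one_add_abs_add_le {a t η : ℝ} (hη : 0 ≤ η) :
    (1 + |a + t|) ^ η ≤ (1 + |t|) ^ η * (1 + |a|) ^ η := by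
  rw [← Real.mul_rpow (by positivity) (by positivity)]
  apply Real.rpow_le_rpow (by positivity) _ hη
  have h1 := abs_add_le a t
  have h2 := mul_nonneg (abs_nonneg a) (abs_nonneg t)
  nlinarith

/-- twisted Möbius sums -/
theorem twMu_bound {θ : ℝ} (hθ : 1 / 2 ≤ θ) (hθ1 : θ < 1)
    (hZ : ∀ s : ℂ, θ < s.re → riemannZeta s ≠ 0) {ε : ℝ} (hε : 0 < ε) {η : ℝ} (hη : 0 < η) :
    ∃ C : ℝ, 0 ≤ C ∧ ∀ (t : ℝ) (N : ℕ), 1 ≤ N →
      ‖∑ n ∈ Finset.Icc 1 N, twMu t n‖ ≤ C * (1 + |t|) ^ η * (N : ℝ) ^ (θ + ε) := by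
  obtain ⟨σ, η₁, A, hσ, hσε, hη₁, hA, hP⟩ := perron_bound_unif hθ (by linarith) hε
  set η₂ := min η η₁ with hη₂
  have hη₂0 : 0 < η₂ := lt_min hη hη₁
  obtain ⟨C, hC, hCb⟩ := inv_zeta_bound hθ hθ1 hZ hσ hη₂0
  have hzp := zetaPole_ne_zero_of hZ
  refine ⟨A * C, by positivity, fun t N hN ↦ ?_⟩
  have hbt : (1 : ℝ) ≤ 1 + |t| := by linarith [abs_nonneg t]
  have hshre : ∀ s : ℂ, (s + (t : ℂ) * I).re = s.re := by intro s; simp
  have hshim : ∀ s : ℂ, (s + (t : ℂ) * I).im = s.im + t := by intro s; simp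
  have key := hP (twMu t) (fun s ↦ (s + t * I - 1) / zetaPole (s + t * I)) (C * (1 + |t|) ^ η)
    ?_ ?_ ?_ ?_ N hN
  · refine key.trans (le_of_eq ?_)
    ring
  · unfold LSeriesSummable
    rw [term_twMu]
    exact ArithmeticFunction.LSeriesSummable_moebius_iff.2 (by simp)
  · intro s hs
    have hs' : θ < (s + (t : ℂ) * I).re := by rw [hshre]; exact hs
    have d1 : DifferentiableAt ℂ (fun s : ℂ ↦ zetaPole (s + t * I)) s :=
      DifferentiableAt.comp s (zetaPole_differentiable (s + t * I)) (by fun_prop)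
    exact (by fun_prop : DifferentiableAt ℂ (fun s : ℂ ↦ s + t * I - 1) s).div d1 (hzp _ hs')
  · intro y
    set s : ℂ := ((2 : ℝ) : ℂ) + y * I with hs
    have hre : (s + (t : ℂ) * I).re = 2 := by rw [hshre, hs]; simp
    have h1 : LSeries (twMu t) s = (riemannZeta (s + t * I))⁻¹ := by
      rw [LSeries, term_twMu, ← LSeries]
      have h1 := LSeries_one_mul_Lseries_moebius (s := s + t * I) (by rw [hre]; norm_num)
      rw [LSeries_one_eq_riemannZeta (by rw [hre]; norm_num)] at h1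
      exact eq_inv_of_mul_eq_one_right h1
    have hne : s + (t : ℂ) * I ≠ 1 := by
      intro h
      rw [h, one_re] at hre
      norm_num at hre
    have hne' : s + (t : ℂ) * I - 1 ≠ 0 := sub_ne_zero.mpr hne
    have hz : riemannZeta (s + t * I) ≠ 0 := riemannZeta_ne_zero_of_one_lt_re (by rw [hre]; norm_num)
    rw [h1, zetaPole_of_ne hne]
    field_simp
  · intro s hs hs2
    have h1 := hCb (s + t * I) (by rw [hshre]; exact hs) (by rw [hshre]; exact hs2)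
    rw [hshim] at h1
    refine h1.trans ?_
    have h2 := one_add_abs_add_le (a := s.im) (t := t) hη₂0.le
    have h3 : (1 + |t|) ^ η₂ ≤ (1 + |t|) ^ η :=
      Real.rpow_le_rpow_of_exponent_le hbt (min_le_left _ _)
    have h4 : (1 + |s.im|) ^ η₂ ≤ (1 + |s.im|) ^ η₁ :=
      Real.rpow_le_rpow_of_exponent_le (by linarith [abs_nonneg s.im]) (min_le_right _ _)
    calc C * (1 + |s.im + t|) ^ η₂ ≤ C * ((1 + |t|) ^ η₂ * (1 + |s.im|) ^ η₂) := by gcongr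
      _ ≤ C * ((1 + |t|) ^ η * (1 + |s.im|) ^ η₁) := by gcongr
      _ = _ := by ring

/-- Abel summation -/
lemma abel_bound {a : ℕ → ℂ} {B β σ x : ℝ} (hβ : β < σ) (hx : σ ≤ x) (hx0 : 0 < σ) (hx2 : x ≤ 2)
    (hB : 0 ≤ B)
    (hS : ∀ n : ℕ, 1 ≤ n → ‖∑ k ∈ Finset.Icc 1 n, a k‖ ≤ B * (n : ℝ) ^ β) (K : ℕ) :
    ‖∑ n ∈ Finset.Icc 1 K, a n * (((n : ℝ) ^ (-x) : ℝ) : ℂ)‖ ≤
      B * (1 + 2 * ∑' n : ℕ, 1 / (n : ℝ) ^ (1 + σ - β)) := by
  have hZs : Summable fun n : ℕ ↦ 1 / (n : ℝ) ^ (1 + σ - β) :=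
    Real.summable_one_div_nat_rpow.mpr (by linarith)
  have hZ0 : 0 ≤ ∑' n : ℕ, 1 / (n : ℝ) ^ (1 + σ - β) := tsum_nonneg fun n ↦ by positivity
  rcases Nat.eq_zero_or_pos K with rfl | hK
  · simp; positivity
  have hid : ∀ K : ℕ, 1 ≤ K → ∑ n ∈ Finset.Icc 1 K, a n * (((n : ℝ) ^ (-x) : ℝ) : ℂ) =
      (∑ k ∈ Finset.Icc 1 K, a k) * (((K : ℝ) ^ (-x) : ℝ) : ℂ) +
      ∑ n ∈ Finset.Ico 1 K, (∑ k ∈ Finset.Icc 1 n, a k) *
        (((n : ℝ) ^ (-x) - ((n + 1 : ℕ) : ℝ) ^ (-x) : ℝ) : ℂ) := by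
    intro K hK
    induction K, hK using Nat.le_induction with
    | base => simp
    | succ K hK ih =>
      rw [Finset.sum_Icc_succ_top (by omega), Finset.sum_Ico_succ_top (by omega), ih,
        Finset.sum_Icc_succ_top (by omega)]
      push_cast
      ring
  rw [hid K hK]
  have hK0 : (0 : ℝ) < K := by exact_mod_cast hK
  have hK1 : (1 : ℝ) ≤ K := by exact_mod_cast hK
  have h1 : ‖(∑ k ∈ Finset.Icc 1 K, a k) * (((K : ℝ) ^ (-x) : ℝ) : ℂ)‖ ≤ B := by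
    rw [norm_mul, norm_real, Real.norm_of_nonneg (by positivity)]
    calc ‖∑ k ∈ Finset.Icc 1 K, a k‖ * (K : ℝ) ^ (-x) ≤ (B * (K : ℝ) ^ β) * (K : ℝ) ^ (-x) := by
          gcongr
          exact hS K hK
      _ = B * (K : ℝ) ^ (β - x) := by rw [sub_eq_add_neg, Real.rpow_add hK0]; ring
      _ ≤ B * 1 := by
          gcongr
          exact Real.rpow_le_one_of_one_le_of_nonpos hK1 (by linarith)
      _ = B := mul_one B
  have h2 : ∀ n ∈ Finset.Ico 1 K, ‖(∑ k ∈ Finset.Icc 1 n, a k) *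
        (((n : ℝ) ^ (-x) - ((n + 1 : ℕ) : ℝ) ^ (-x) : ℝ) : ℂ)‖ ≤
        2 * B * (1 / (n : ℝ) ^ (1 + σ - β)) := by
    intro n hn
    have hn1 := (Finset.mem_Ico.1 hn).1
    have hn0 : (0 : ℝ) < n := by exact_mod_cast hn1
    have hn1' : (1 : ℝ) ≤ n := by exact_mod_cast hn1
    have hx0' : 0 < x := by linarith
    have hd0 : ((n + 1 : ℕ) : ℝ) ^ (-x) ≤ (n : ℝ) ^ (-x) := by
      apply Real.rpow_le_rpow_of_nonpos hn0 (by push_cast; linarith) (by linarith)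
    have hd : (n : ℝ) ^ (-x) - ((n + 1 : ℕ) : ℝ) ^ (-x) ≤ 2 * (n : ℝ) ^ (-x - 1) := by
      have e1 : ((n + 1 : ℕ) : ℝ) = n * (1 + 1 / n) := by push_cast; field_simp
      have e2 : (0 : ℝ) < 1 + 1 / n := by positivity
      rw [e1, Real.mul_rpow hn0.le e2.le]
      have e3 : 1 - x / n ≤ (1 + 1 / (n : ℝ)) ^ (-x) := by
        rw [Real.rpow_def_of_pos e2]
        have e4 := Real.log_le_sub_one_of_pos e2
        have e5 := Real.add_one_le_exp (Real.log (1 + 1 / (n : ℝ)) * -x)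
        have e6 : Real.log (1 + 1 / (n : ℝ)) * x ≤ (1 / n) * x := by
          apply mul_le_mul_of_nonneg_right _ hx0'.le
          linarith
        have e7 : (1 / (n : ℝ)) * x = x / n := by ring
        linarith
      have e8 : (n : ℝ) ^ (-x - 1) = (n : ℝ) ^ (-x) / n := Real.rpow_sub_one hn0.ne' _
      rw [e8]
      have e9 : 0 < (n : ℝ) ^ (-x) := by positivity
      have e10 : (n : ℝ) ^ (-x) * (1 - x / n) ≤ (n : ℝ) ^ (-x) * (1 + 1 / (n : ℝ)) ^ (-x) := by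
        gcongr
      have e11 : (n : ℝ) ^ (-x) * (x / n) ≤ 2 * ((n : ℝ) ^ (-x) / n) := by
        have : (n : ℝ) ^ (-x) * (x / n) = x * ((n : ℝ) ^ (-x) / n) := by ring
        rw [this]
        gcongr
      linarith
    rw [norm_mul, norm_real, Real.norm_of_nonneg (by linarith)]
    calc ‖∑ k ∈ Finset.Icc 1 n, a k‖ * ((n : ℝ) ^ (-x) - ((n + 1 : ℕ) : ℝ) ^ (-x))
        ≤ (B * (n : ℝ) ^ β) * (2 * (n : ℝ) ^ (-x - 1)) := by
          apply mul_le_mul (hS n hn1) hd (by linarith) (by positivity)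
      _ = 2 * B * ((n : ℝ) ^ β * (n : ℝ) ^ (-x - 1)) := by ring
      _ = 2 * B * (n : ℝ) ^ (β - x - 1) := by
          rw [← Real.rpow_add hn0]; congr 2; ring
      _ ≤ 2 * B * (n : ℝ) ^ (-(1 + σ - β)) := by
          have : (n : ℝ) ^ (β - x - 1) ≤ (n : ℝ) ^ (-(1 + σ - β)) :=
            Real.rpow_le_rpow_of_exponent_le hn1' (by linarith)
          gcongr
      _ = _ := by rw [Real.rpow_neg hn0.le]; ring
  calc _ ≤ ‖(∑ k ∈ Finset.Icc 1 K, a k) * (((K : ℝ) ^ (-x) : ℝ) : ℂ)‖ +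
        ‖∑ n ∈ Finset.Ico 1 K, (∑ k ∈ Finset.Icc 1 n, a k) *
        (((n : ℝ) ^ (-x) - ((n + 1 : ℕ) : ℝ) ^ (-x) : ℝ) : ℂ)‖ := norm_add_le _ _
    _ ≤ B + ∑ n ∈ Finset.Ico 1 K, 2 * B * (1 / (n : ℝ) ^ (1 + σ - β)) := by
        gcongr
        exact norm_sum_le_of_le _ h2
    _ = B + 2 * B * ∑ n ∈ Finset.Ico 1 K, 1 / (n : ℝ) ^ (1 + σ - β) := by rw [Finset.mul_sum]
    _ ≤ B + 2 * B * ∑' n : ℕ, 1 / (n : ℝ) ^ (1 + σ - β) := by
        have := hZs.sum_le_tsum (Finset.Ico 1 K) fun n _ ↦ by positivity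
        gcongr
    _ = _ := by ring

/-- The partial sums of the Dirichlet series of `1/ζ` are `O(|t|^η)`, uniformly. -/
theorem MK_bound {θ : ℝ} (hθ : 1 / 2 ≤ θ) (hθ1 : θ < 1)
    (hZ : ∀ s : ℂ, θ < s.re → riemannZeta s ≠ 0) {σ : ℝ} (hσ : θ < σ) {η : ℝ} (hη : 0 < η) :
    ∃ C : ℝ, 0 ≤ C ∧ ∀ (K : ℕ) (s : ℂ), σ ≤ s.re → s.re ≤ 2 →
      ‖Bs K muR s‖ ≤ C * (1 + |s.im|) ^ η := by
  obtain ⟨C, hC0, hC⟩ := twMu_bound hθ hθ1 hZ (ε := (σ - θ) / 2) (by linarith) hη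
  set β := θ + (σ - θ) / 2 with hβ
  have hβσ : β < σ := by rw [hβ]; linarith
  set Z := ∑' n : ℕ, 1 / (n : ℝ) ^ (1 + σ - β) with hZd
  have hZ0 : 0 ≤ Z := tsum_nonneg fun n ↦ by positivity
  refine ⟨C * (1 + 2 * Z), by positivity, fun K s hs hs2 ↦ ?_⟩
  have h1 := abel_bound (a := twMu s.im) (B := C * (1 + |s.im|) ^ η) hβσ hs (by linarith) hs2
    (by positivity) (fun n hn ↦ hC s.im n hn) K
  have h2 : Bs K muR s = ∑ n ∈ Finset.Icc 1 K, twMu s.im n * (((n : ℝ) ^ (-s.re) : ℝ) : ℂ) := by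
    unfold Bs
    refine Finset.sum_congr rfl fun n hn ↦ ?_
    have hn1 := (Finset.mem_Icc.1 hn).1
    have hn0 : (0 : ℝ) < n := by exact_mod_cast hn1
    have hnc : (n : ℂ) ≠ 0 := by exact_mod_cast hn0.ne'
    rw [twMu, ofReal_cpow hn0.le, mul_assoc]
    push_cast
    rw [← cpow_add _ _ hnc]
    congr 2
    apply Complex.ext <;> simp
  rw [h2]
  refine h1.trans (le_of_eq ?_)
  ring

end Pool.Agent.H6
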