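import Mathlib
import Pool.Agent.H6.Lp.Mob
import Pool.Agent.H24.NB.Mellin

/-!
In a zero-free half-plane `Re s > θ`: `∑_{k ≤ K} μ(k) ⌊N/k⌋ = N ∑_{k ≤ K} μ(k)/k + O(N^{θ+ε})`,
uniformly in `K`.
-/

open Complex Filter Topology MeasureTheory Set LSeries Metric

namespace Pool.Agent.H6

open Pool.Agent.H24.NB

/-- the coefficients `∑_{k ≤ K, k ∣ n} μ(k) - ∑_{k ≤ K} μ(k)/k` -/
noncomputable def remCoeff (K : ℕ) (n : ℕ) : ℂ :=
  (∑ k ∈ Finset.Icc 1 K, (muR k : ℂ) * ((if k ∣ n then (1:ℝ) else 0 : ℝ) : ℂ)) - (mm K : ℂ)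

lemma mm_eq_SS (K : ℕ) : mm K = SS K muR := rfl

lemma remCoeff_eq (K : ℕ) : remCoeff K =
    (∑ k ∈ Finset.Icc 1 K, (muR k : ℂ) • fun n : ℕ ↦ ((if k ∣ n then (1:ℝ) else 0 : ℝ) : ℂ)) -
      (mm K : ℂ) • (fun _ ↦ 1) := by
  ext n
  simp [remCoeff]

lemma summable_dvd {s : ℂ} (hs : 1 < s.re) (k : ℕ) :
    LSeriesSummable (fun n : ℕ ↦ ((if k ∣ n then (1:ℝ) else 0 : ℝ) : ℂ)) s := by
  refine LSeriesSummable_of_bounded_of_one_lt_re (m := 1) (fun n _ ↦ ?_) hs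
  split_ifs <;> simp

lemma summable_one {s : ℂ} (hs : 1 < s.re) : LSeriesSummable (fun _ : ℕ ↦ (1 : ℂ)) s :=
  LSeriesSummable_of_bounded_of_one_lt_re (m := 1) (fun n _ ↦ by simp) hs

lemma LSeriesSummable_finset_sum {ι : Type*} (S : Finset ι) (f : ι → ℕ → ℂ) {s : ℂ}
    (h : ∀ i ∈ S, LSeriesSummable (f i) s) : LSeriesSummable (∑ i ∈ S, f i) s := by
  classical
  induction S using Finset.induction_on with
  | empty =>
    simp only [Finset.sum_empty]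
    exact LSeriesSummable_zero
  | insert i S hi ih =>
    rw [Finset.sum_insert hi]
    exact (h i (Finset.mem_insert_self _ _)).add
      (ih fun j hj ↦ h j (Finset.mem_insert_of_mem hj))

lemma LSeries_finset_sum {ι : Type*} (S : Finset ι) (f : ι → ℕ → ℂ) {s : ℂ}
    (h : ∀ i ∈ S, LSeriesSummable (f i) s) : LSeries (∑ i ∈ S, f i) s = ∑ i ∈ S, LSeries (f i) s := by
  classical
  induction S using Finset.induction_on with
  | empty =>
    simp only [Finset.sum_empty]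
    exact congrFun LSeries_zero s
  | insert i S hi ih =>
    rw [Finset.sum_insert hi, Finset.sum_insert hi,
      LSeries_add (h i (Finset.mem_insert_self _ _))
        (LSeriesSummable_finset_sum S f fun j hj ↦ h j (Finset.mem_insert_of_mem hj)),
      ih fun j hj ↦ h j (Finset.mem_insert_of_mem hj)]

lemma summable_remCoeff {s : ℂ} (hs : 1 < s.re) (K : ℕ) : LSeriesSummable (remCoeff K) s := by
  rw [remCoeff_eq]
  exact (LSeriesSummable_finset_sum _ _ fun k _ ↦ (summable_dvd hs k).smul _).sub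
    ((summable_one hs).smul _)

lemma LSeries_remCoeff {s : ℂ} (hs : 1 < s.re) (K : ℕ) :
    LSeries (remCoeff K) s = riemannZeta s * (Bs K muR s - mm K) := by
  rw [remCoeff_eq, LSeries_sub
    (LSeriesSummable_finset_sum _ _ fun k _ ↦ (summable_dvd hs k).smul _)
    ((summable_one hs).smul _), LSeries_finset_sum _ _ fun k _ ↦ (summable_dvd hs k).smul _,
    LSeries_smul]
  have h1 : LSeries (fun _ : ℕ ↦ (1 : ℂ)) s = riemannZeta s := LSeries_one_eq_riemannZeta hs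
  rw [h1]
  have h2 : ∀ k ∈ Finset.Icc 1 K, LSeries ((muR k : ℂ) •
      fun n : ℕ ↦ ((if k ∣ n then (1:ℝ) else 0 : ℝ) : ℂ)) s =
      riemannZeta s * ((muR k : ℂ) * (k : ℂ) ^ (-s)) := by
    intro k hk
    rw [LSeries_smul, LSeries_dvd hs k (Finset.mem_Icc.1 hk).1]
    ring
  rw [Finset.sum_congr rfl h2, ← Finset.mul_sum]
  unfold Bs
  ring

/-- the continuation of the Dirichlet series of `remCoeff` -/
noncomputable def remG (K : ℕ) (s : ℂ) : ℂ := zetaPole s * dslope (Bs K muR) 1 s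

lemma differentiable_dslope_Bs (K : ℕ) : Differentiable ℂ (dslope (Bs K muR) 1) := by
  rw [← differentiableOn_univ]
  exact (Complex.differentiableOn_dslope univ_mem).2 (differentiable_Bs K muR).differentiableOn

lemma differentiable_remG (K : ℕ) : Differentiable ℂ (remG K) :=
  zetaPole_differentiable.mul (differentiable_dslope_Bs K)

lemma remG_eq {s : ℂ} (hs : s ≠ 1) (K : ℕ) :
    remG K s = riemannZeta s * (Bs K muR s - mm K) := by
  have h1 : s - 1 ≠ 0 := sub_ne_zero.mpr hs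
  rw [remG, zetaPole_of_ne hs, dslope_of_ne _ hs, slope_def_field, Bs_one, ← mm_eq_SS]
  field_simp

/-- uniform growth of `remG` -/
lemma remG_bound {θ : ℝ} (hθ : 1 / 2 ≤ θ) (hθ1 : θ < 1)
    (hZ : ∀ s : ℂ, θ < s.re → riemannZeta s ≠ 0) {σ : ℝ} (hσ : θ < σ) (hσ1 : σ < 1)
    {η : ℝ} (hη : 0 < η) :
    ∃ C : ℝ, 0 ≤ C ∧ ∀ (K : ℕ) (s : ℂ), σ ≤ s.re → s.re ≤ 2 →
      ‖remG K s‖ ≤ C * (1 + |s.im|) ^ η := by
  set ζ₁ : ℝ := min η 1 with hζ₁
  have hζ0 : 0 < ζ₁ := lt_min hη one_pos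
  have hζ1 : ζ₁ ≤ 1 := min_le_right _ _
  have hζη : ζ₁ ≤ η := min_le_left _ _
  obtain ⟨C₁, hC₁, h1⟩ := zetaPole_bound hθ hθ1 hZ hσ (η := ζ₁ / 2) (by linarith)
  obtain ⟨C₂, hC₂, h2⟩ := MK_bound hθ hθ1 hZ hσ (η := ζ₁ / 2) (by linarith)
  set r : ℝ := 1 - σ with hr
  have hr0 : 0 < r := by rw [hr]; linarith
  have hr1 : r < 1 := by rw [hr]; linarith
  -- bound of the slope outside the ball
  have hout : ∀ (K : ℕ) (s : ℂ), σ ≤ s.re → s.re ≤ 2 → r ≤ ‖s - 1‖ →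
      ‖dslope (Bs K muR) 1 s‖ ≤ 4 * C₂ / r * (1 + |s.im|) ^ (ζ₁ / 2 - 1) := by
    intro K s hs hs2 hrs
    have hs1 : s ≠ 1 := by
      rintro rfl
      simp at hrs
      linarith
    have hpos : 0 < 1 + |s.im| := by positivity
    rw [dslope_of_ne _ hs1, slope_def_field, norm_div]
    have b1 := h2 K s hs hs2
    have b2 := h2 K 1 (by simpa using hσ1.le) (by simp)
    have b3 : (1 : ℝ) ≤ (1 + |s.im|) ^ (ζ₁ / 2) :=
      Real.one_le_rpow (by linarith [abs_nonneg s.im]) (by linarith)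
    have b4 : ‖Bs K muR s - Bs K muR 1‖ ≤ 2 * C₂ * (1 + |s.im|) ^ (ζ₁ / 2) := by
      refine (norm_sub_le _ _).trans ?_
      have : ‖Bs K muR 1‖ ≤ C₂ := by simpa using b2
      nlinarith
    have b5 : r * (1 + |s.im|) ≤ 2 * ‖s - 1‖ := by
      have h3 : |s.im| ≤ ‖s - 1‖ := by simpa using abs_im_le_norm (s - 1)
      have h4 := abs_nonneg s.im
      nlinarith
    have hn0 : 0 < ‖s - 1‖ := by linarith
    rw [div_le_iff₀ hn0]
    refine b4.trans ?_
    have e1 : (1 + |s.im|) ^ (ζ₁ / 2 - 1) = (1 + |s.im|) ^ (ζ₁ / 2) / (1 + |s.im|) :=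
      Real.rpow_sub_one hpos.ne' _
    rw [e1]
    have e2 : 4 * C₂ / r * ((1 + |s.im|) ^ (ζ₁ / 2) / (1 + |s.im|)) * ‖s - 1‖ =
        2 * C₂ * (1 + |s.im|) ^ (ζ₁ / 2) * (2 * ‖s - 1‖ / (r * (1 + |s.im|))) := by
      field_simp
      ring
    rw [e2]
    refine le_mul_of_one_le_right (by positivity) ?_
    rw [le_div_iff₀ (by positivity), one_mul]
    exact b5
  -- bound inside the ball
  have hin : ∀ (K : ℕ) (s : ℂ), ‖s - 1‖ ≤ r → ‖dslope (Bs K muR) 1 s‖ ≤ 4 * C₂ / r := by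
    intro K s hs
    refine Complex.norm_le_of_forall_mem_frontier_norm_le (U := ball (1:ℂ) r) isBounded_ball
      (differentiable_dslope_Bs K).diffContOnCl ?_ ?_
    · intro z hz
      rw [frontier_ball _ hr0.ne', mem_sphere, dist_eq_norm] at hz
      have hzre : |z.re - 1| ≤ r := by
        have := abs_re_le_norm (z - 1)
        rw [hz] at this
        simpa using this
      have hz1 := (abs_le.mp hzre).1
      have hz2 := (abs_le.mp hzre).2
      refine (hout K z (by linarith) (by linarith) hz.ge).trans ?_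
      have : (1 + |z.im|) ^ (ζ₁ / 2 - 1) ≤ 1 :=
        Real.rpow_le_one_of_one_le_of_nonpos (by linarith [abs_nonneg z.im]) (by linarith)
      exact mul_le_of_le_one_right (by positivity) this
    · rw [closure_ball _ hr0.ne', mem_closedBall, dist_eq_norm]
      exact hs
  refine ⟨C₁ * (8 * C₂ / r), by positivity, fun K s hs hs2 ↦ ?_⟩
  have hbase : (1 : ℝ) ≤ 1 + |s.im| := by linarith [abs_nonneg s.im]
  have hpos : 0 < 1 + |s.im| := by linarith
  have hsl : ‖dslope (Bs K muR) 1 s‖ ≤ 8 * C₂ / r * (1 + |s.im|) ^ (ζ₁ / 2 - 1) := by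
    rcases le_or_gt r ‖s - 1‖ with h | h
    · refine (hout K s hs hs2 h).trans ?_
      have : 4 * C₂ / r ≤ 8 * C₂ / r := by gcongr; norm_num
      gcongr
    · refine (hin K s h.le).trans ?_
      have h3 : |s.im| ≤ 1 := by
        have : |s.im| ≤ ‖s - 1‖ := by simpa using abs_im_le_norm (s - 1)
        linarith
      have h4 : (1 / 2 : ℝ) ≤ (1 + |s.im|) ^ (ζ₁ / 2 - 1) := by
        calc (1 / 2 : ℝ) = 2 ^ (-1 : ℝ) := by rw [Real.rpow_neg_one]; norm_num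
          _ ≤ (1 + |s.im|) ^ (-1 : ℝ) :=
              Real.rpow_le_rpow_of_nonpos hpos (by linarith) (by norm_num)
          _ ≤ (1 + |s.im|) ^ (ζ₁ / 2 - 1) :=
              Real.rpow_le_rpow_of_exponent_le hbase (by linarith)
      have h5 : 4 * C₂ / r = 8 * C₂ / r * (1 / 2) := by ring
      rw [h5]
      gcongr
  rw [remG, norm_mul]
  calc ‖zetaPole s‖ * ‖dslope (Bs K muR) 1 s‖
      ≤ (C₁ * (1 + |s.im|) ^ (1 + ζ₁ / 2)) * (8 * C₂ / r * (1 + |s.im|) ^ (ζ₁ / 2 - 1)) := by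
        gcongr
        exact h1 s hs hs2
    _ = C₁ * (8 * C₂ / r) * ((1 + |s.im|) ^ (1 + ζ₁ / 2) * (1 + |s.im|) ^ (ζ₁ / 2 - 1)) := by ring
    _ = C₁ * (8 * C₂ / r) * (1 + |s.im|) ^ ζ₁ := by
        rw [← Real.rpow_add hpos]
        congr 2
        ring
    _ ≤ _ := by
        have := Real.rpow_le_rpow_of_exponent_le hbase hζη
        gcongr

lemma sum_remCoeff (K N : ℕ) : ∑ n ∈ Finset.Icc 1 N, remCoeff K n =
    ((∑ k ∈ Finset.Icc 1 K, muR k * ((N / k : ℕ) : ℝ) - N * mm K : ℝ) : ℂ) := by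
  unfold remCoeff
  rw [Finset.sum_sub_distrib, Finset.sum_comm]
  push_cast
  congr 1
  · refine Finset.sum_congr rfl fun k _ ↦ ?_
    rw [← Finset.mul_sum]
    congr 1
    have := sum_dvd_eq k N
    rw [← Complex.ofReal_natCast, ← this]
    push_cast
    rfl
  · simp

/-- `∑_{k ≤ K} μ(k) ⌊N/k⌋ = N ∑_{k ≤ K} μ(k)/k + O(N^{θ+ε})`, uniformly in `K`. -/
theorem rem_bound {θ : ℝ} (hθ : 1 / 2 ≤ θ) (hθ1 : θ < 1)
    (hZ : ∀ s : ℂ, θ < s.re → riemannZeta s ≠ 0) {ε : ℝ} (hε : 0 < ε) :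
    ∃ C : ℝ, 0 ≤ C ∧ ∀ K N : ℕ, 1 ≤ N →
      |∑ k ∈ Finset.Icc 1 K, muR k * ((N / k : ℕ) : ℝ) - N * mm K| ≤ C * (N : ℝ) ^ (θ + ε) := by
  set ε₁ := min ε (1 - θ) with hε₁
  have hε₁0 : 0 < ε₁ := lt_min hε (by linarith)
  obtain ⟨σ, η, A, hσ, hσε, hη, hA, hP⟩ := perron_bound_unif hθ (by linarith) hε₁0
  have hσ1 : σ < 1 := by
    have := min_le_right ε (1 - θ)
    linarith
  obtain ⟨C, hC, hCb⟩ := remG_bound hθ hθ1 hZ hσ hσ1 hη
  refine ⟨A * C, by positivity, fun K N hN ↦ ?_⟩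
  have key := hP (remCoeff K) (remG K) C (summable_remCoeff (by simp) K)
    (fun s _ ↦ differentiable_remG K s) (fun y ↦ ?_) (hCb K) N hN
  · rw [sum_remCoeff, norm_real, Real.norm_eq_abs] at key
    refine key.trans ?_
    have hN1 : (1 : ℝ) ≤ N := by exact_mod_cast hN
    have : (N : ℝ) ^ (θ + ε₁) ≤ (N : ℝ) ^ (θ + ε) :=
      Real.rpow_le_rpow_of_exponent_le hN1 (by linarith [min_le_left ε (1 - θ)])
    gcongr
  · have hs : 1 < (((2 : ℝ) : ℂ) + y * I).re := by simp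
    have hne : ((2 : ℝ) : ℂ) + y * I ≠ 1 := by
      intro h
      rw [h, one_re] at hs
      exact lt_irrefl _ hs
    rw [LSeries_remCoeff hs, remG_eq hne]

end Pool.Agent.H6
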