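import Mathlib
import Pool.Agent.H6.Lp.Rem

/-!
Pointwise bound for the Möbius approximant with corrected last coefficient.
-/

open Complex Filter Topology MeasureTheory Set

namespace Pool.Agent.H6

open Pool.Agent.H24.NB

/-- `-μ(k)`, with the last coefficient corrected so that `∑_{k ≤ N} c k / k = 0` -/
noncomputable def optCoeff (N k : ℕ) : ℝ := -muR k + if k = N then N * mm N else 0

lemma sum_optCoeff (N : ℕ) (hN : 1 ≤ N) (f : ℕ → ℝ) :
    ∑ k ∈ Finset.Icc 1 N, optCoeff N k * f k =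
      -∑ k ∈ Finset.Icc 1 N, muR k * f k + N * mm N * f N := by
  unfold optCoeff
  simp_rw [add_mul, neg_mul, ite_mul, zero_mul]
  rw [Finset.sum_add_distrib, Finset.sum_neg_distrib, Finset.sum_ite_eq',
    if_pos (Finset.mem_Icc.2 ⟨hN, le_rfl⟩)]

lemma SS_optCoeff (N : ℕ) (hN : 1 ≤ N) : SS N (optCoeff N) = 0 := by
  have h := sum_optCoeff N hN (fun k => (k:ℝ)⁻¹)
  have hN0 : (N:ℝ) ≠ 0 := by positivity
  unfold SS
  simp only [div_eq_mul_inv]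
  rw [h]
  unfold mm
  simp only [div_eq_mul_inv]
  field_simp
  ring

lemma gfun_optCoeff (N : ℕ) (hN : 1 ≤ N) {x : ℝ} (hx : 0 ≤ x) :
    gfun N (optCoeff N) x = 1 - ∑ k ∈ Finset.Icc 1 N, muR k * ((⌊x⌋₊ / k : ℕ) : ℝ) +
      N * mm N * ((⌊x⌋₊ / N : ℕ) : ℝ) := by
  rw [gfun_eq, SS_optCoeff N hN, zero_mul, sub_zero]
  simp_rw [floor_div_eq hx]
  rw [sum_optCoeff N hN (fun k => ((⌊x⌋₊ / k : ℕ) : ℝ))]
  ring

/-- The approximant vanishes for `1 ≤ x < N`. -/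
lemma gfun_optCoeff_zero (N : ℕ) {x : ℝ} (hx : 1 ≤ x) (hxN : x < N) :
    gfun N (optCoeff N) x = 0 := by
  have hn1 : 1 ≤ ⌊x⌋₊ := (Nat.one_le_floor_iff x).2 hx
  have hnN : ⌊x⌋₊ < N := (Nat.floor_lt (by linarith)).2 hxN
  rw [gfun_optCoeff N (by omega) (by linarith), sum_mu_div_of_le N _ hn1 hnN.le,
    Nat.div_eq_of_lt hnN]
  simp

lemma abs_mul_mm_le_trivial (N : ℕ) (hN : 1 ≤ N) : |(N:ℝ) * mm N| ≤ N + 1 := by
  have h1 := sum_mu_div_of_le N N hN le_rfl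
  have hN0 : (0:ℝ) < N := by exact_mod_cast hN
  have h2 : (N:ℝ) * mm N - 1 = ∑ k ∈ Finset.Icc 1 N, muR k * ((N:ℝ) / k - ((N / k : ℕ) : ℝ)) := by
    rw [← h1]
    unfold mm
    rw [Finset.mul_sum, ← Finset.sum_sub_distrib]
    refine Finset.sum_congr rfl fun k _ => ?_
    ring
  have h3 : |(N:ℝ) * mm N - 1| ≤ N := by
    rw [h2]
    refine (Finset.abs_sum_le_sum_abs _ _).trans ?_
    have h4 : ∀ k ∈ Finset.Icc 1 N, |muR k * ((N:ℝ) / k - ((N / k : ℕ) : ℝ))| ≤ 1 := by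
      intro k hk
      have hk1 := (Finset.mem_Icc.1 hk).1
      have hk0 : (0:ℝ) < k := by exact_mod_cast hk1
      rw [abs_mul]
      have h5 : |(N:ℝ) / k - ((N / k : ℕ) : ℝ)| ≤ 1 := by
        have h6 : ((N / k : ℕ) : ℝ) ≤ (N:ℝ) / k := Nat.cast_div_le
        have h7 : (N:ℝ) / k < ((N / k : ℕ) : ℝ) + 1 := by
          rw [div_lt_iff₀ hk0]
          have := Nat.lt_div_mul_add (a := N) (b := k) (by omega)
          have h8 : (N:ℝ) < (N / k : ℕ) * k + k := by exact_mod_cast this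
          linarith
        rw [abs_le]
        constructor <;> linarith
      calc |muR k| * |(N:ℝ) / k - ((N / k : ℕ) : ℝ)| ≤ 1 * 1 :=
            mul_le_mul (abs_muR_le k) h5 (abs_nonneg _) zero_le_one
        _ = 1 := one_mul 1
    calc _ ≤ ∑ k ∈ Finset.Icc 1 N, (1:ℝ) := Finset.sum_le_sum h4
      _ = N := by simp
  have h8 := abs_sub_abs_le_abs_sub ((N:ℝ) * mm N) 1
  rw [abs_one] at h8
  linarith

/-- **Pointwise bound.** -/
theorem opt_bound {θ : ℝ} (hθ : 1 / 2 ≤ θ) (hZ : ∀ s : ℂ, θ < s.re → riemannZeta s ≠ 0)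
    {ε : ℝ} (hε : 0 < ε) :
    ∃ C : ℝ, 0 ≤ C ∧ ∀ N : ℕ, 1 ≤ N → ∀ x : ℝ, 1 ≤ x →
      |gfun N (optCoeff N) x| ≤ C * x ^ (θ + ε) := by
  have key : ∃ C : ℝ, 0 ≤ C ∧ ∀ N : ℕ, 1 ≤ N → ∀ n : ℕ, N ≤ n →
      |∑ k ∈ Finset.Icc 1 N, muR k * ((n / k : ℕ) : ℝ) - n * mm N| ≤ C * (n : ℝ) ^ (θ + ε) := by
    rcases lt_or_ge θ 1 with hθ1 | hθ1
    · obtain ⟨C, hC, h⟩ := rem_bound hθ hθ1 hZ hε
      exact ⟨C, hC, fun N hN n hn => h N n (by omega)⟩
    · refine ⟨1, zero_le_one, fun N hN n hn => ?_⟩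
      have hn1 : (1:ℝ) ≤ n := by exact_mod_cast (by omega : 1 ≤ n)
      have h2 : ∑ k ∈ Finset.Icc 1 N, muR k * ((n / k : ℕ) : ℝ) - n * mm N =
          ∑ k ∈ Finset.Icc 1 N, muR k * (((n / k : ℕ) : ℝ) - (n:ℝ) / k) := by
        unfold mm
        rw [Finset.mul_sum, ← Finset.sum_sub_distrib]
        refine Finset.sum_congr rfl fun k _ => ?_
        ring
      rw [h2]
      refine (Finset.abs_sum_le_sum_abs _ _).trans ?_
      have h4 : ∀ k ∈ Finset.Icc 1 N, |muR k * (((n / k : ℕ) : ℝ) - (n:ℝ) / k)| ≤ 1 := by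
        intro k hk
        have hk1 := (Finset.mem_Icc.1 hk).1
        have hk0 : (0:ℝ) < k := by exact_mod_cast hk1
        rw [abs_mul]
        have h5 : |((n / k : ℕ) : ℝ) - (n:ℝ) / k| ≤ 1 := by
          have h6 : ((n / k : ℕ) : ℝ) ≤ (n:ℝ) / k := Nat.cast_div_le
          have h7 : (n:ℝ) / k < ((n / k : ℕ) : ℝ) + 1 := by
            rw [div_lt_iff₀ hk0]
            have := Nat.lt_div_mul_add (a := n) (b := k) (by omega)
            have h8 : (n:ℝ) < (n / k : ℕ) * k + k := by exact_mod_cast this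
            linarith
          rw [abs_le]
          constructor <;> linarith
        calc |muR k| * |((n / k : ℕ) : ℝ) - (n:ℝ) / k| ≤ 1 * 1 :=
              mul_le_mul (abs_muR_le k) h5 (abs_nonneg _) zero_le_one
          _ = 1 := one_mul 1
      calc _ ≤ ∑ k ∈ Finset.Icc 1 N, (1:ℝ) := Finset.sum_le_sum h4
        _ = N := by simp
        _ ≤ n := by exact_mod_cast hn
        _ = (n:ℝ) ^ (1:ℝ) := (Real.rpow_one _).symm
        _ ≤ (n:ℝ) ^ (θ + ε) := Real.rpow_le_rpow_of_exponent_le hn1 (by linarith)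
        _ = _ := (one_mul _).symm
  obtain ⟨C, hC, h⟩ := key
  refine ⟨2 + 2 * C, by positivity, fun N hN x hx => ?_⟩
  have hx0 : 0 ≤ x := by linarith
  rcases lt_or_ge x N with hxN | hxN
  · rw [gfun_optCoeff_zero N hx hxN, abs_zero]
    positivity
  have hN0 : (0:ℝ) < N := by exact_mod_cast hN
  set n := ⌊x⌋₊ with hn
  have hNn : N ≤ n := Nat.le_floor hxN
  have hnx : (n:ℝ) ≤ x := Nat.floor_le hx0
  have hn1 : (1:ℝ) ≤ n := by exact_mod_cast (by omega : 1 ≤ n)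
  have h1 := h N hN n hNn
  have h2 := h N hN N le_rfl
  rw [sum_mu_div_of_le N N hN le_rfl] at h2
  rw [gfun_optCoeff N hN hx0, ← hn]
  set D := ∑ k ∈ Finset.Icc 1 N, muR k * ((n / k : ℕ) : ℝ) with hD
  have hmod : (n:ℝ) = N * ((n / N : ℕ) : ℝ) + ((n % N : ℕ) : ℝ) := by
    exact_mod_cast (Nat.div_add_mod n N).symm
  have hmodlt : ((n % N : ℕ) : ℝ) ≤ N := by
    exact_mod_cast (Nat.mod_lt n (by omega)).le
  have e1 : 1 - D + N * mm N * ((n / N : ℕ) : ℝ) =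
      1 - (D - n * mm N) - mm N * ((n % N : ℕ) : ℝ) := by
    have : (n:ℝ) * mm N = N * mm N * ((n / N : ℕ) : ℝ) + mm N * ((n % N : ℕ) : ℝ) := by
      conv_lhs => rw [hmod]
      ring
    linarith
  rw [e1]
  have h3 : |mm N * ((n % N : ℕ) : ℝ)| ≤ 1 + C * (N:ℝ) ^ (θ + ε) := by
    have h4 : |mm N * ((n % N : ℕ) : ℝ)| ≤ |(N:ℝ) * mm N| := by
      rw [abs_mul, abs_mul, mul_comm, abs_of_nonneg (Nat.cast_nonneg (n % N)), abs_of_pos hN0]
      exact mul_le_mul_of_nonneg_right hmodlt (abs_nonneg _)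
    have h5 : |(N:ℝ) * mm N| ≤ 1 + C * (N:ℝ) ^ (θ + ε) := by
      have := abs_sub_abs_le_abs_sub ((N:ℝ) * mm N) 1
      rw [abs_one, abs_sub_comm] at this
      linarith
    exact h4.trans h5
  have hpow1 : (N:ℝ) ^ (θ + ε) ≤ x ^ (θ + ε) :=
    Real.rpow_le_rpow hN0.le hxN (by linarith)
  have hpow2 : (n:ℝ) ^ (θ + ε) ≤ x ^ (θ + ε) :=
    Real.rpow_le_rpow (by linarith) hnx (by linarith)
  have hpow3 : 1 ≤ x ^ (θ + ε) := Real.one_le_rpow hx (by linarith)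
  have h6 := abs_sub (1 - (D - n * mm N)) (mm N * ((n % N : ℕ) : ℝ))
  have h7 := abs_sub 1 (D - n * mm N)
  rw [abs_one] at h7
  nlinarith

end Pool.Agent.H6
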