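import Mathlib
import Pool.Agent.H6.Lp.Lower
import Pool.Agent.H6.Lp.Point

/-!
# Weighted `L^p` norms on `(0, 1)`
-/

namespace Pool.Agent.H6.Lp

open Complex Set MeasureTheory Filter Topology Pool.Agent.H6 Pool.Agent.H24.NB
open scoped ENNReal

/-- The measure `dx / x` on `(0, 1)`. -/
noncomputable def haarUnit : Measure ℝ :=
  (volume.restrict (Ioo 0 1)).withDensity fun x => ENNReal.ofReal (1 / x)

/-- The norm of `x ↦ x^σ f(x)` in `L^p((0,1), dx/x)`; for `σ = 1/p`, `p < ∞` this is the norm of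
`f` in `L^p(0,1)`. -/
noncomputable def wNorm (p : ℝ≥0∞) (σ : ℝ) (f : ℝ → ℝ) : ℝ :=
  (eLpNorm (fun x => x ^ σ * f x) p haarUnit).toReal

lemma measurable_dens : Measurable fun x : ℝ => ENNReal.ofReal (1 / x) :=
  (measurable_const.div measurable_id).ennreal_ofReal

lemma ae_mem : ∀ᵐ x ∂haarUnit, x ∈ Ioo (0:ℝ) 1 := by
  have h1 : ∀ᵐ x ∂(volume.restrict (Ioo (0:ℝ) 1)), x ∈ Ioo (0:ℝ) 1 := ae_restrict_mem measurableSet_Ioo
  exact (withDensity_absolutelyContinuous _ _).ae_le h1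

lemma integrable_iff {F : ℝ → ℝ} :
    Integrable F haarUnit ↔ IntegrableOn (fun x => x⁻¹ * F x) (Ioo 0 1) := by
  unfold haarUnit
  rw [integrable_withDensity_iff_integrable_smul' measurable_dens
    (ae_of_all _ fun x => ENNReal.ofReal_lt_top)]
  refine integrable_congr ?_
  refine (ae_restrict_iff' measurableSet_Ioo).2 (ae_of_all _ fun x hx => ?_)
  simp only [smul_eq_mul]
  rw [ENNReal.toReal_ofReal (one_div_nonneg.2 hx.1.le), one_div]

lemma integral_haarUnit (F : ℝ → ℝ) :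
    ∫ x, F x ∂haarUnit = ∫ x in Ioo (0:ℝ) 1, x⁻¹ * F x := by
  unfold haarUnit
  rw [integral_withDensity_eq_integral_toReal_smul measurable_dens
    (ae_of_all _ fun x => ENNReal.ofReal_lt_top)]
  refine setIntegral_congr_fun measurableSet_Ioo fun x hx => ?_
  simp only [smul_eq_mul]
  rw [ENNReal.toReal_ofReal (one_div_nonneg.2 hx.1.le), one_div]

lemma image_inv_Ioi : (fun x : ℝ => x⁻¹) '' Ioi 1 = Ioo 0 1 := by
  ext y
  simp only [mem_image, mem_Ioi, mem_Ioo]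
  constructor
  · rintro ⟨x, hx, rfl⟩
    exact ⟨by positivity, inv_lt_one_of_one_lt₀ hx⟩
  · rintro ⟨h0, h1⟩
    exact ⟨y⁻¹, (one_lt_inv₀ h0).2 h1, inv_inv y⟩

lemma integral_haarUnit' (F : ℝ → ℝ) :
    ∫ x, F x ∂haarUnit = ∫ y in Ioi (1:ℝ), y⁻¹ * F y⁻¹ := by
  rw [integral_haarUnit, ← image_inv_Ioi, integral_image_eq_integral_abs_deriv_smul
    (f' := fun x => -(x ^ 2)⁻¹) measurableSet_Ioi]
  · refine setIntegral_congr_fun measurableSet_Ioi fun x hx => ?_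
    have hx0 : (0:ℝ) < x := lt_trans zero_lt_one hx
    simp only [smul_eq_mul]
    rw [abs_neg, abs_of_pos (by positivity), inv_inv]
    field_simp
  · intro x hx
    have hx0 : (0:ℝ) < x := lt_trans zero_lt_one hx
    exact (hasDerivAt_inv hx0.ne').hasDerivWithinAt
  · intro x _ y _ h
    exact inv_injective h

lemma measurable_rpow_const (δ : ℝ) : Measurable fun x : ℝ => x ^ δ := measurable_id.pow_const _

/-- `x^δ ∈ L^p((0,1), dx/x)` for all `p`. -/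
lemma memLp_rpow {δ : ℝ} (hδ : 0 < δ) {p : ℝ≥0∞} (hp : 1 ≤ p) :
    MemLp (fun x : ℝ => x ^ δ) p haarUnit := by
  have hm : AEStronglyMeasurable (fun x : ℝ => x ^ δ) haarUnit :=
    (measurable_rpow_const δ).aestronglyMeasurable
  rcases eq_or_ne p ∞ with rfl | htop
  · refine memLp_top_of_bound hm 1 ?_
    filter_upwards [ae_mem] with x hx
    rw [Real.norm_of_nonneg (Real.rpow_nonneg hx.1.le _)]
    exact Real.rpow_le_one hx.1.le hx.2.le hδ.le
  · have hp0 : p ≠ 0 := (lt_of_lt_of_le zero_lt_one hp).ne'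
    rw [← integrable_norm_rpow_iff hm hp0 htop, integrable_iff]
    have hpr : 0 < p.toReal := ENNReal.toReal_pos hp0 htop
    have h1 : IntegrableOn (fun x : ℝ => x ^ (δ * p.toReal - 1)) (Ioo 0 1) :=
      (intervalIntegral.integrableOn_Ioo_rpow_iff zero_lt_one).2 (by nlinarith [mul_pos hδ hpr])
    refine h1.congr_fun (fun x hx => ?_) measurableSet_Ioo
    simp only
    rw [Real.norm_of_nonneg (Real.rpow_nonneg hx.1.le _), ← Real.rpow_mul hx.1.le,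
      Real.rpow_sub_one hx.1.ne']
    ring

/-- the function `1 - ∑ b θ {θ / x}` -/
noncomputable def fJ (J : Finset ℝ) (b : ℝ → ℝ) (x : ℝ) : ℝ := 1 - ∑ θ ∈ J, b θ * Int.fract (θ / x)

lemma fJ_inv (J : Finset ℝ) (b : ℝ → ℝ) (y : ℝ) : fJ J b y⁻¹ = gG J b y := by
  unfold fJ gG
  congr 1
  refine Finset.sum_congr rfl fun θ _ => ?_
  rw [div_inv_eq_mul]

lemma measurable_fJ (J : Finset ℝ) (b : ℝ → ℝ) : Measurable (fJ J b) := by
  unfold fJ
  refine measurable_const.sub (Finset.measurable_sum _ fun θ _ => ?_)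
  exact (measurable_fract.comp (measurable_const.div measurable_id)).const_mul _

lemma abs_fJ_le (J : Finset ℝ) (b : ℝ → ℝ) (x : ℝ) : |fJ J b x| ≤ 1 + ∑ θ ∈ J, |b θ| := by
  have h := abs_gG_le J b x⁻¹
  rwa [← fJ_inv, inv_inv] at h

lemma memLp_of_le {p : ℝ≥0∞} (hp : 1 ≤ p) {δ : ℝ} (hδ : 0 < δ) {F : ℝ → ℝ} (hF : Measurable F)
    {C : ℝ} (hC : ∀ x ∈ Ioo (0:ℝ) 1, |F x| ≤ C * x ^ δ) : MemLp F p haarUnit := by
  refine ((memLp_rpow hδ hp).const_mul C).mono hF.aestronglyMeasurable ?_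
  filter_upwards [ae_mem] with x hx
  rw [Real.norm_eq_abs, Real.norm_eq_abs]
  exact (hC x hx).trans (le_abs_self _)

lemma memLp_fJ {p : ℝ≥0∞} (hp : 1 ≤ p) {σ : ℝ} (hσ : 0 < σ) (J : Finset ℝ) (b : ℝ → ℝ) :
    MemLp (fun x => x ^ σ * fJ J b x) p haarUnit := by
  refine memLp_of_le hp hσ ((measurable_rpow_const σ).mul (measurable_fJ J b))
    (C := 1 + ∑ θ ∈ J, |b θ|) fun x hx => ?_
  rw [abs_mul, abs_of_nonneg (Real.rpow_nonneg hx.1.le _), mul_comm]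
  exact mul_le_mul_of_nonneg_right (abs_fJ_le J b x) (Real.rpow_nonneg hx.1.le _)

lemma wNorm_nonneg (p : ℝ≥0∞) (σ : ℝ) (f : ℝ → ℝ) : 0 ≤ wNorm p σ f := ENNReal.toReal_nonneg

lemma wNorm_le {p : ℝ≥0∞} (hp : 1 ≤ p) {δ : ℝ} (hδ : 0 < δ) {σ : ℝ} {f : ℝ → ℝ}
    {C : ℝ} (hC0 : 0 ≤ C) (hC : ∀ x ∈ Ioo (0:ℝ) 1, x ^ σ * |f x| ≤ C * x ^ δ) :
    wNorm p σ f ≤ C * (eLpNorm (fun x : ℝ => x ^ δ) p haarUnit).toReal := by
  unfold wNorm
  have h1 : eLpNorm (fun x => x ^ σ * f x) p haarUnit ≤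
      eLpNorm (fun x : ℝ => C * x ^ δ) p haarUnit := by
    refine eLpNorm_mono_ae ?_
    filter_upwards [ae_mem] with x hx
    have h0 : 0 ≤ x ^ δ := Real.rpow_nonneg hx.1.le _
    have h0' : 0 ≤ C * x ^ δ := mul_nonneg hC0 h0
    rw [Real.norm_eq_abs, Real.norm_eq_abs, abs_of_nonneg h0', abs_mul,
      abs_of_nonneg (Real.rpow_nonneg hx.1.le σ)]
    exact hC x hx
  have h2 : eLpNorm (fun x : ℝ => C * x ^ δ) p haarUnit =
      ENNReal.ofReal C * eLpNorm (fun x : ℝ => x ^ δ) p haarUnit := by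
    have h := eLpNorm_const_smul C (fun x : ℝ => x ^ δ) p haarUnit
    rw [Real.enorm_eq_ofReal hC0] at h
    rw [← h]
    rfl
  rw [h2] at h1
  have h3 : ENNReal.ofReal C * eLpNorm (fun x : ℝ => x ^ δ) p haarUnit ≠ ∞ :=
    ENNReal.mul_ne_top ENNReal.ofReal_ne_top (memLp_rpow hδ hp).eLpNorm_ne_top
  have h4 := ENNReal.toReal_mono h3 h1
  rwa [ENNReal.toReal_mul, ENNReal.toReal_ofReal hC0] at h4

/-- `nrmT` is the `L¹` norm. -/
lemma eLpNorm_one_fJ {τ : ℝ} (hτ : 0 < τ) (J : Finset ℝ) (b : ℝ → ℝ) :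
    eLpNorm (fun x => x ^ τ * fJ J b x) 1 haarUnit = ENNReal.ofReal (nrmT τ J b) := by
  have hm := memLp_fJ le_rfl hτ J b
  rw [hm.eLpNorm_eq_integral_rpow_norm one_ne_zero ENNReal.one_ne_top]
  simp only [ENNReal.toReal_one, Real.rpow_one, inv_one]
  congr 1
  rw [integral_haarUnit']
  unfold nrmT
  refine setIntegral_congr_fun measurableSet_Ioi fun y hy => ?_
  have hy0 : (0:ℝ) < y := lt_trans zero_lt_one hy
  rw [fJ_inv, norm_mul, Real.norm_eq_abs, Real.norm_eq_abs, abs_of_nonneg (by positivity),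
    Real.inv_rpow hy0.le, ← Real.rpow_neg hy0.le]
  rw [show -(τ + 1) = -τ - 1 by ring, Real.rpow_sub_one hy0.ne']
  ring

/-- Hölder. -/
lemma nrmT_le_wNorm {p : ℝ≥0∞} (hp : 1 ≤ p) {σ δ : ℝ} (hσ : 0 < σ) (hδ : 0 < δ) :
    ∃ K : ℝ, 0 < K ∧ ∀ (J : Finset ℝ) (b : ℝ → ℝ),
      nrmT (σ + δ) J b ≤ K * wNorm p σ (fJ J b) := by
  set q := ENNReal.conjExponent p with hq
  have hpq : p.HolderConjugate q := ENNReal.HolderConjugate.conjExponent hp
  have hpq' : q.HolderConjugate p := hpq.symm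
  have hq1 : 1 ≤ q := hpq'.one_le
  have hfin := (memLp_rpow hδ hq1).eLpNorm_ne_top
  refine ⟨(eLpNorm (fun x : ℝ => x ^ δ) q haarUnit).toReal + 1, by positivity, fun J b => ?_⟩
  have hm := memLp_fJ hp hσ J b
  have h1 : eLpNorm ((fun x : ℝ => x ^ δ) • (fun x => x ^ σ * fJ J b x)) 1 haarUnit ≤
      eLpNorm (fun x : ℝ => x ^ δ) q haarUnit *
      eLpNorm (fun x => x ^ σ * fJ J b x) p haarUnit :=
    eLpNorm_smul_le_mul_eLpNorm (hpqr := hpq') hm.aestronglyMeasurable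
      (measurable_rpow_const δ).aestronglyMeasurable
  have h2 : eLpNorm ((fun x : ℝ => x ^ δ) • (fun x => x ^ σ * fJ J b x)) 1 haarUnit =
      eLpNorm (fun x => x ^ (σ + δ) * fJ J b x) 1 haarUnit := by
    refine eLpNorm_congr_ae ?_
    filter_upwards [ae_mem] with x hx
    simp only [Pi.smul_apply', smul_eq_mul]
    rw [Real.rpow_add hx.1]
    ring
  rw [h2, eLpNorm_one_fJ (by linarith)] at h1
  have h3 := ENNReal.toReal_mono (ENNReal.mul_ne_top hfin hm.eLpNorm_ne_top) h1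
  rw [ENNReal.toReal_ofReal (nrmT_nonneg _ _ _), ENNReal.toReal_mul] at h3
  unfold wNorm
  have h4 : 0 ≤ (eLpNorm (fun x => x ^ σ * fJ J b x) p haarUnit).toReal := ENNReal.toReal_nonneg
  linarith

/-- **Lower bound in every weighted `L^p`.** -/
theorem lower_w {p : ℝ≥0∞} (hp : 1 ≤ p) {σ : ℝ} (hσ : 0 < σ) {ε : ℝ} (hε : 0 < ε) :
    ∃ c : ℝ, 0 < c ∧ ∀ N : ℕ, 1 ≤ N → ∀ J : Finset ℝ,
      (∀ θ ∈ J, (1 / N : ℝ) ≤ θ ∧ θ ≤ 1) → ∀ b : ℝ → ℝ,
      c * (N:ℝ) ^ (-(max 0 (σ - zetaSup) + ε)) ≤ wNorm p σ (fJ J b) := by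
  set D : ℝ := max 0 (σ - zetaSup) with hD
  have hD0 : 0 ≤ D := le_max_left _ _
  -- parameters
  set δ : ℝ := ε / 8 with hδ
  have hδ0 : 0 < δ := by positivity
  set η : ℝ := ε / (4 * (D + 2 * δ + 1)) with hη
  have hη0 : 0 < η := by positivity
  obtain ⟨ρ, hρ, h0, h1, h2⟩ := exists_zero_near hδ0
  obtain ⟨c, hc, hlow⟩ := lower_T hρ h0 h1 (τ := σ + δ) (by linarith) hη0
  obtain ⟨K, hK, hKb⟩ := nrmT_le_wNorm hp hσ hδ0
  refine ⟨c / K, by positivity, fun N hN J hJ b => ?_⟩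
  have hN0 : (0:ℝ) < N := by exact_mod_cast hN
  have hN1 : (1:ℝ) ≤ N := by exact_mod_cast hN
  have h3 := hlow (1 / N) (by positivity) (by rw [div_le_one hN0]; exact hN1) J hJ b
  rw [one_div, Real.inv_rpow hN0.le, ← Real.rpow_neg hN0.le] at h3
  have h4 := hKb J b
  have h5 : max 0 (σ + δ - ρ.re) * (1 + η) ≤ D + ε := by
    have h6 : max 0 (σ + δ - ρ.re) ≤ D + 2 * δ := by
      apply max_le
      · linarith
      · have : σ - zetaSup ≤ D := le_max_right _ _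
        linarith
    have h7 : (D + 2 * δ) * η ≤ ε / 4 := by
      rw [hη]
      have h8 : (D + 2 * δ) * (ε / (4 * (D + 2 * δ + 1))) =
          ε / 4 * ((D + 2 * δ) / (D + 2 * δ + 1)) := by
        field_simp
      rw [h8]
      have h9 : (D + 2 * δ) / (D + 2 * δ + 1) ≤ 1 := by
        rw [div_le_one (by positivity)]
        linarith
      have h10 : 0 ≤ ε / 4 := by positivity
      nlinarith
    calc max 0 (σ + δ - ρ.re) * (1 + η) ≤ (D + 2 * δ) * (1 + η) := by gcongr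
      _ ≤ D + ε := by
        rw [hδ] at h7 ⊢
        nlinarith
  have h6 : (N:ℝ) ^ (-(D + ε)) ≤ (N:ℝ) ^ (-(max 0 (σ + δ - ρ.re) * (1 + η))) :=
    Real.rpow_le_rpow_of_exponent_le hN1 (by linarith)
  rw [div_mul_eq_mul_div, div_le_iff₀ hK]
  calc c * (N:ℝ) ^ (-(D + ε)) ≤ c * (N:ℝ) ^ (-(max 0 (σ + δ - ρ.re) * (1 + η))) := by gcongr
    _ ≤ nrmT (σ + δ) J b := h3
    _ ≤ K * wNorm p σ (fJ J b) := h4
    _ = _ := mul_comm _ _

/-- the approximant as a combination of dilations `1/k` -/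
lemma gG_image (N : ℕ) (c : ℕ → ℝ) (x : ℝ) :
    gG ((Finset.Icc 1 N).image (fun k : ℕ => (1 / k : ℝ))) (fun θ => c ⌊1 / θ⌋₊) x =
      gfun N c x := by
  unfold gG gfun
  rw [Finset.sum_image]
  · congr 1
    refine Finset.sum_congr rfl fun k hk => ?_
    have hk1 := (Finset.mem_Icc.1 hk).1
    have hk0 : (k:ℝ) ≠ 0 := by
      have : (0:ℝ) < k := by exact_mod_cast hk1
      exact this.ne'
    have e1 : ⌊1 / (1 / (k:ℝ))⌋₊ = k := by
      rw [one_div_one_div, Nat.floor_natCast]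
    show c ⌊1 / (1 / (k:ℝ))⌋₊ * Int.fract (1 / (k:ℝ) * x) = c k * Int.fract (x / k)
    rw [e1]
    congr 2
    ring
  · intro k hk l hl h
    have h2 : (k:ℝ) = l := by
      simp only [one_div, inv_inj] at h
      exact h
    exact_mod_cast h2

/-- `1 - ∑_{k ≤ N} c k {1/(k x)}` -/
noncomputable def fN (N : ℕ) (c : ℕ → ℝ) (x : ℝ) : ℝ :=
  1 - ∑ k ∈ Finset.Icc 1 N, c k * Int.fract (1 / (k * x))

lemma fN_eq_gfun (N : ℕ) (c : ℕ → ℝ) (x : ℝ) : fN N c x = gfun N c x⁻¹ := by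
  unfold fN gfun
  congr 1
  refine Finset.sum_congr rfl fun k _ => ?_
  congr 2
  rw [one_div, mul_inv, div_eq_mul_inv, mul_comm]

lemma fN_eq_fJ (N : ℕ) (c : ℕ → ℝ) : fN N c =
    fJ ((Finset.Icc 1 N).image (fun k : ℕ => (1 / k : ℝ))) (fun θ => c ⌊1 / θ⌋₊) := by
  ext x
  rw [fN_eq_gfun, ← gG_image, ← fJ_inv, inv_inv]

/-- **Upper bound in every weighted `L^p`** for the explicit approximants. -/
theorem upper_w {p : ℝ≥0∞} (hp : 1 ≤ p) {σ : ℝ} (hσ : zetaSup < σ) {ε : ℝ} (hε : 0 < ε) :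
    ∃ C : ℝ, 0 < C ∧ ∀ N : ℕ, 1 ≤ N →
      wNorm p σ (fN N (optCoeff N)) ≤ C * (N:ℝ) ^ (-(σ - zetaSup - ε)) := by
  set ε' : ℝ := min (ε / 2) ((σ - zetaSup) / 4) with hε'
  have hε'0 : 0 < ε' := lt_min (by linarith) (by linarith)
  have hε'1 : ε' ≤ ε / 2 := min_le_left _ _
  have hε'2 : ε' ≤ (σ - zetaSup) / 4 := min_le_right _ _
  obtain ⟨C, hC, h⟩ := opt_bound half_le_zetaSup (fun s hs => zeta_ne_zero_of_gt hs) hε'0
  set A := (eLpNorm (fun x : ℝ => x ^ ε') p haarUnit).toReal with hA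
  have hA0 : 0 ≤ A := ENNReal.toReal_nonneg
  refine ⟨C * A + 1, by positivity, fun N hN => ?_⟩
  have hN0 : (0:ℝ) < N := by exact_mod_cast hN
  have hN1 : (1:ℝ) ≤ N := by exact_mod_cast hN
  set κ : ℝ := σ - zetaSup - 2 * ε' with hκ
  have hκ0 : 0 ≤ κ := by rw [hκ]; linarith
  have h1 := wNorm_le (p := p) hp hε'0 (σ := σ) (f := fN N (optCoeff N)) (C := C * (N:ℝ) ^ (-κ))
    (by positivity) (fun x hx => ?_)
  · have h2 : (N:ℝ) ^ (-κ) ≤ (N:ℝ) ^ (-(σ - zetaSup - ε)) :=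
      Real.rpow_le_rpow_of_exponent_le hN1 (by rw [hκ]; linarith)
    calc wNorm p σ (fN N (optCoeff N)) ≤ C * (N:ℝ) ^ (-κ) * A := h1
      _ ≤ C * (N:ℝ) ^ (-(σ - zetaSup - ε)) * A := by gcongr
      _ = C * A * (N:ℝ) ^ (-(σ - zetaSup - ε)) := by ring
      _ ≤ (C * A + 1) * (N:ℝ) ^ (-(σ - zetaSup - ε)) := by
        have : 0 ≤ (N:ℝ) ^ (-(σ - zetaSup - ε)) := by positivity
        linarith
  · obtain ⟨hx0, hx1⟩ := hx
    have hy : 1 ≤ x⁻¹ := (one_lt_inv₀ hx0).2 hx1 |>.le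
    rw [fN_eq_gfun]
    rcases lt_or_ge x⁻¹ N with hxN | hxN
    · rw [gfun_optCoeff_zero N hy hxN, abs_zero, mul_zero]
      positivity
    · have h3 := h N hN x⁻¹ hy
      have h4 : x ^ κ ≤ (N:ℝ) ^ (-κ) := by
        rw [Real.rpow_neg hN0.le, ← Real.inv_rpow hN0.le]
        apply Real.rpow_le_rpow hx0.le _ hκ0
        rw [le_inv_comm₀ hx0 hN0]
        exact hxN
      calc x ^ σ * |gfun N (optCoeff N) x⁻¹| ≤ x ^ σ * (C * x⁻¹ ^ (zetaSup + ε')) := by gcongr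
        _ = C * (x ^ σ * x ^ (-(zetaSup + ε'))) := by
          rw [Real.inv_rpow hx0.le, Real.rpow_neg hx0.le]; ring
        _ = C * (x ^ κ * x ^ ε') := by
          rw [← Real.rpow_add hx0, ← Real.rpow_add hx0]
          congr 2
          rw [hκ]; ring
        _ ≤ C * ((N:ℝ) ^ (-κ) * x ^ ε') := by gcongr
        _ = _ := by ring

/-- Abstract form: a sequence squeezed between `N^{-κ-ε}` and `N^{-κ+ε}` has exponent `κ`. -/
lemma tendsto_exponent' (d : ℕ → ℝ) (κ : ℝ)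
    (hlow : ∀ ε > 0, ∃ c > 0, ∀ N : ℕ, 1 ≤ N → c * (N:ℝ) ^ (-(κ + ε)) ≤ d N)
    (hup : ∀ ε > 0, ∃ C > 0, ∀ N : ℕ, 1 ≤ N → d N ≤ C * (N:ℝ) ^ (-(κ - ε))) :
    Tendsto (fun N : ℕ => Real.log (1 / d N) / Real.log N) atTop (𝓝 κ) := by
  have hlogtop : Tendsto (fun N : ℕ => Real.log N) atTop atTop :=
    Real.tendsto_log_atTop.comp tendsto_natCast_atTop_atTop
  have hsmall : ∀ A : ℝ, ∀ ε > 0, ∀ᶠ N : ℕ in atTop, |A| / Real.log N < ε := by
    intro A ε hε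
    have h1 : Tendsto (fun N : ℕ => |A| / Real.log N) atTop (𝓝 0) :=
      hlogtop.const_div_atTop _
    exact h1.eventually (gt_mem_nhds hε)
  rw [Metric.tendsto_atTop']
  intro ε hε
  obtain ⟨c, hc, h⟩ := hlow (ε / 4) (by linarith)
  obtain ⟨C, hC, h'⟩ := hup (ε / 4) (by linarith)
  have hU : ∀ᶠ N : ℕ in atTop, Real.log (1 / d N) / Real.log N < κ + ε ∧
      κ - ε < Real.log (1 / d N) / Real.log N := by
    filter_upwards [hsmall (Real.log c) (ε / 4) (by linarith),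
      hsmall (Real.log C) (ε / 4) (by linarith), eventually_ge_atTop 2] with N h5 h5' h6
    have hN1 : (1:ℝ) < N := by exact_mod_cast (by omega : 1 < N)
    have hN0 : (0:ℝ) < N := by linarith
    have hlN : 0 < Real.log N := Real.log_pos hN1
    have h7 := h N (by omega)
    have h7' := h' N (by omega)
    have hd : 0 < d N := lt_of_lt_of_le (by positivity) h7
    have h8 : Real.log (c * (N:ℝ) ^ (-(κ + ε / 4))) ≤ Real.log (d N) :=
      Real.log_le_log (by positivity) h7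
    have h8' : Real.log (d N) ≤ Real.log (C * (N:ℝ) ^ (-(κ - ε / 4))) :=
      Real.log_le_log hd h7'
    rw [Real.log_mul hc.ne' (by positivity), Real.log_rpow hN0] at h8
    rw [Real.log_mul hC.ne' (by positivity), Real.log_rpow hN0] at h8'
    rw [div_lt_iff₀ hlN] at h5 h5'
    have h9 := neg_abs_le (Real.log c)
    have h9' := le_abs_self (Real.log C)
    constructor
    · rw [one_div, Real.log_inv, div_lt_iff₀ hlN]
      nlinarith
    · rw [one_div, Real.log_inv, lt_div_iff₀ hlN]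
      nlinarith
  obtain ⟨N0, hN0⟩ := eventually_atTop.1 hU
  refine ⟨N0, fun N hN => ?_⟩
  obtain ⟨h1, h2⟩ := hN0 N hN.le
  rw [Real.dist_eq, abs_lt]
  constructor <;> linarith

end Pool.Agent.H6.Lp
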